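import Pool.Agent.XW.Defs
import Pool.Agent.XV.T.Stm

/-!
# Project XW-18: the 2-descent for the even discriminants

`d` is squarefree, `d = 2, 3 mod 4`, `4 d = - pe δ N` is the discriminant of class `b`; the curve is
`y² = x (x - 9 d) (x - 25 d)` and the isogenous one `y² = x (x + 4 d) (x + 64 d)`. All the statements were
checked numerically for `|d| < 3000`.
-/

set_option autoImplicit false

namespace Pool.Agent.XW.T

open Finset WeierstrassCurve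
open Pool.Agent.Y700 (PC)
open Pool.Agent.Z702 (WZ LocI sh)
open Pool.Agent.TH841.SH.D (Sha)
open Pool.Agent.XV.T (aD bD NoS ps)

/-- the even discriminants of the class `b` -/
def Ev (δ : ℤ) (N : Finset ℕ) (d : ℤ) : Prop :=
  Dt δ ∧ Pe N ∧ 2 ∈ N ∧ Jb δ N ∧ 4 * d = -(pe δ N : ℤ)

/-- the squarefree part of the prime discriminant: `± q = 1 mod 4` for odd `q`, and `-1, 2, -2` for
`q = 2`, `δ = -4, 8, -8`; so `d = ∏ q ∈ N, pz δ q` -/
def pz (δ : ℤ) (q : ℕ) : ℤ := if q = 2 then (if δ = -4 then -1 else δ / 4) else ps q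

/-- the symbol at `p` of a number `= 1 mod 4` -/
def s2 (p : ℕ) (c : ℤ) : ℤ := if p = 2 then (if c % 8 = 1 then 1 else -1) else jacobiSym c p

/-- the Rédei symbols of the decompositions of the discriminant -/
def genS (δ : ℤ) (N D0 : Finset ℕ) (p : ℕ) : ℤ :=
  if p ∈ D0 then s2 p (∏ q ∈ N \ D0, pz δ q) else s2 p (∏ q ∈ D0, pz δ q)

/-- the transposed Rédei kernel is trivial -/
def KrS (δ : ℤ) (N : Finset ℕ) : Prop :=
  ∀ D0 ⊆ N, (∀ p ∈ N, genS δ N D0 p = 1) → D0 = ∅ ∨ D0 = N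

/-- XW-18-1: the Selmer group of the isogeny, classes of `x` on `y² = x (x - 9 d) (x - 25 d)` (in the class
of `1` or `d` in `ℚ_p^* / 2` at all `p ∈ N`, units at `3` and `5`) -/
def S_S1 : Prop := ∀ δ N d, Ev δ N d → ∀ z : ℤ, Squarefree z →
  (∀ (p : ℕ) [Fact p.Prime], PC (aD d) (bD d) p z) →
  ∃ D0 ⊆ N, z = ∏ q ∈ D0, pz δ q ∧ ∀ p ∈ N, genS δ N D0 p = 1

/-- XW-18-2: the Selmer group of the dual isogeny, classes of `x` on `y² = x (x + 4 d) (x + 64 d)` -/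
def S_S2 : Prop := ∀ δ N d, Ev δ N d → ∀ z : ℤ, Squarefree z → 0 < z →
  (∀ (p : ℕ) [Fact p.Prime], PC (-2 * aD d) (aD d ^ 2 - 4 * bD d) p z) →
  ∃ D0 ⊆ N, z = ∏ l ∈ D0, (l : ℤ) ∧ ∀ p ∈ N.erase 2, gen δ N D0 p = 1

/-- XW-18-3: the two kernels (the matrices are transposed to each other) -/
def S_LIN : Prop := ∀ δ N d, Ev δ N d → Kr δ N → KrS δ N

/-- XW-18-4: if there are finitely many rational points, then the classes of the rational points of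
the isogenous curve are those of the points of order two -/
def S_TOF : Prop := ∀ d : ℤ, d < 0 → ¬ IsSquare (-(d : ℚ)) → ∀ z : ℤ,
  Finite (WZ (aD d) (bD d)).toAffine.Point → LocI ℚ (aD d) (bD d) z →
  IsSquare (z : ℚ) ∨ IsSquare ((z : ℚ) * (-(d : ℚ)))

/-- the Hilbert symbol at `2` of `a` and `b` not divisible by `4`, `a = 2^α u`, `b = 2^β v`:
`(-1)^{(u - 1)/2 (v - 1)/2} (2/v)^α (2/u)^β` -/
def h2 (a b : ℤ) : ℤ :=
  let u := if 2 ∣ a then a / 2 else a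
  let v := if 2 ∣ b then b / 2 else b
  (if u % 4 = 3 ∧ v % 4 = 3 then -1 else 1) * (if 2 ∣ a then ZMod.χ₈ v else 1) *
    (if 2 ∣ b then ZMod.χ₈ u else 1)

/-- XW-18-5: reciprocity: the elements of the kernel are norms at `2` -/
def S_REC : Prop := ∀ δ N d, Ev δ N d → ∀ D0 ⊆ N, (∀ p ∈ N.erase 2, gen δ N D0 p = 1) →
  h2 (∏ l ∈ D0, (l : ℤ)) d = 1

/-- XW-18-6: the local solubility at `2` -/
def S_LO2 : Prop := ∀ (_ : Fact (Nat.Prime 2)) (d z : ℤ), (d % 4 = 2 ∨ d % 4 = 3) → ¬ (4 : ℤ) ∣ z →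
  h2 z d = 1 → LocI ℚ_[2] (aD d) (bD d) z

/-- XW-18-7: the local solubility away from `2` -/
def S_LOO : Prop := ∀ δ N d, Ev δ N d → ∀ D0 ⊆ N, (∀ p ∈ N.erase 2, gen δ N D0 p = 1) →
  (∀ (p : ℕ) [Fact p.Prime], p ≠ 2 → LocI ℚ_[p] (aD d) (bD d) (∏ l ∈ D0, (l : ℤ))) ∧
    LocI ℝ (aD d) (bD d) (∏ l ∈ D0, (l : ℤ))

/-- the equivalence -/
def S_DSC : Prop := ∀ δ N d, Ev δ N d → (Kr δ N ↔ NoS d)

/-- the changes of the equations -/
def S_TRV : Prop := ∀ d : ℤ, d ≠ 0 →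
  (Finite (WZ (aD d) (bD d)).toAffine.Point ↔
    Finite (sh (-12987 * d ^ 2) (-263466 * d ^ 3)).toAffine.Point) ∧
  ((∀ x : Sha (WZ (aD d) (bD d)), x + x = 0 → x = 0) ↔
    ∀ x : Sha (sh (-12987 * d ^ 2) (-263466 * d ^ 3)), x + x = 0 → x = 0)

end Pool.Agent.XW.T
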