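import Pool.Agent.XW.T.Stm
import Pool.Agent.XW.Odd
import Pool.Agent.XV.T.Dsc
import Pool.Agent.XV.T.TRV
import Pool.Agent.XV.T.TOF

/-!
# XW-18: the equivalence from the parts, even discriminants
-/

set_option autoImplicit false
set_option linter.style.haveILetI false

namespace Pool.Agent.XW.T

open Finset WeierstrassCurve
open Pool.Agent.Y700 (PC)
open Pool.Agent.Y668 (selCoc)
open Pool.Agent.Y545.Z702 (ns_of fin_iso)
open Pool.Agent.Z702 (WZ LocI sh)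
open Pool.Agent.TH841.SH.D (Sha)
open Pool.Agent.XV.T (aD bD NoS ps S_CS S_CT sha_ex')
open Pool.Agent.Z700 (pr)

/-- XW-18-4 -/
theorem t_TOF : S_TOF := by
  intro D hDneg hns z hfin hloc
  obtain ⟨X, Y, r, hX, hY, hXd⟩ := hloc
  have hneg : (D : ℚ) < 0 := by exact_mod_cast hDneg
  have hD0 : (D : ℚ) ≠ 0 := hneg.ne
  have hb : ((bD D : ℤ) : ℚ) ≠ 0 := by
    unfold bD
    push_cast
    exact mul_ne_zero (by norm_num) (pow_ne_zero 2 hD0)
  have hc : ((aD D : ℤ) : ℚ) ^ 2 - 4 * ((bD D : ℤ) : ℚ) = 4 * (D : ℚ) * (64 * D) := by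
    unfold aD bD
    push_cast
    ring
  have ha : -2 * ((aD D : ℤ) : ℚ) = 4 * (D : ℚ) + 64 * D := by
    unfold aD
    push_cast
    ring
  have hC : 4 * (D : ℚ) * (64 * D) ≠ 0 :=
    mul_ne_zero (mul_ne_zero (by norm_num) hD0) (mul_ne_zero (by norm_num) hD0)
  have hf := fin_iso hb (by rw [hc]; exact hC) hfin
  rw [hc, ha] at hf
  have hY' : Y ^ 2 = X ^ 3 + (4 * (D : ℚ) + 64 * D) * X ^ 2 + (4 * (D : ℚ) * (64 * D)) * X := by
    rw [hY, ← hc, ← ha]; ring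
  have hE : (4 * (D : ℚ) + 64 * D) ^ 2 - 4 * (4 * (D : ℚ) * (64 * D)) ≠ 0 := by
    have : (4 * (D : ℚ) + 64 * D) ^ 2 - 4 * (4 * (D : ℚ) * (64 * D)) = 3600 * D ^ 2 := by ring
    rw [this]
    exact mul_ne_zero (by norm_num) (pow_ne_zero 2 hD0)
  have hn := ns_of hC hE hY'
  have hr : r ≠ 0 := by
    rintro rfl
    apply hX
    rw [hXd]; ring
  have sq_of : ∀ u : ℚ, IsSquare (X * u) → IsSquare ((z : ℚ) * u) := by
    rintro u ⟨s, hs⟩
    refine ⟨s / r, ?_⟩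
    rw [hXd] at hs
    field_simp
    linear_combination hs
  rcases Pool.Agent.XV.T.TOF.cls hneg (n := -(D : ℚ)) (by ring) hns hf hn hX with h | h
  · left
    simpa using sq_of 1 (by simpa using h)
  · right
    exact sq_of _ h

/-- the changes of the equations -/
theorem t_TRV : S_TRV := by
  intro D hD0
  have hT := Pool.Agent.Z702.f_TRN
  have hDQ : (D : ℚ) ≠ 0 := by exact_mod_cast hD0
  have e2 : (sh (-12987 * D ^ 2) (-263466 * D ^ 3)).Δ ≠ 0 := by
    have h8 : (sh (-12987 * D ^ 2) (-263466 * D ^ 3)).Δ =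
        -(8 * 0 - 0 ) + (-64 * (-12987 * (D : ℚ) ^ 2) ^ 3 - 432 * (-263466 * (D : ℚ) ^ 3) ^ 2) := by
      simp only [sh, WeierstrassCurve.Δ, WeierstrassCurve.b₂, WeierstrassCurve.b₄,
        WeierstrassCurve.b₆, WeierstrassCurve.b₈]
      push_cast
      ring
    have h9 : -(8 * 0 - 0 ) + (-64 * (-12987 * (D : ℚ) ^ 2) ^ 3 -
        432 * (-263466 * (D : ℚ) ^ 3) ^ 2) = (64 * 12987 ^ 3 - 432 * 263466 ^ 2) * (D : ℚ) ^ 6 := by
      ring
    rw [h8, h9]
    exact mul_ne_zero (by norm_num) (pow_ne_zero _ hDQ)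
  obtain ⟨b1, b2, -⟩ := hT _ _ _ _ _ _ (Pool.Agent.XV.T.Trv.vr_sh15 D) e2
  exact ⟨b1, b2⟩

/-! ### the products -/

theorem mem_prime {N : Finset ℕ} (hN : Pe N) {p : ℕ} (hp : p ∈ N) : p.Prime := (hN p hp).1

/-- `n = |d|` is a product of different primes -/
def Nd (δ : ℤ) (N : Finset ℕ) : Finset ℕ := if δ = -4 then N.erase 2 else N

theorem d_eq {δ : ℤ} {N : Finset ℕ} {d : ℤ} (h : Ev δ N d) : d = -(∏ l ∈ Nd δ N, (l : ℤ)) := by
  obtain ⟨hδ, hN, h2, -, h4⟩ := h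
  have e1 : (pe δ N : ℤ) = (δ.natAbs : ℤ) * ∏ l ∈ N.erase 2, (l : ℤ) := by
    unfold pe
    rw [← Finset.mul_prod_erase N (fun p => md δ p) h2]
    push_cast
    rw [Od.md_two]
    have : ∏ p ∈ N.erase 2, ((md δ p : ℕ) : ℤ) = ∏ l ∈ N.erase 2, (l : ℤ) :=
      Finset.prod_congr rfl fun p hp => by rw [Od.md_ne (Finset.ne_of_mem_erase hp)]
    rw [this, Int.natCast_natAbs]
  have e2 : ∏ l ∈ N, (l : ℤ) = 2 * ∏ l ∈ N.erase 2, (l : ℤ) :=
    (Finset.mul_prod_erase N (fun l : ℕ => (l : ℤ)) h2).symm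
  unfold Nd
  rcases hδ with rfl | rfl | rfl
  · rw [if_pos rfl]
    rw [e1] at h4
    have : ((-4 : ℤ).natAbs : ℤ) = 4 := rfl
    rw [this] at h4
    linarith
  · rw [if_neg (by norm_num), e2]
    rw [e1] at h4
    have : ((8 : ℤ).natAbs : ℤ) = 8 := rfl
    rw [this] at h4
    linarith
  · rw [if_neg (by norm_num), e2]
    rw [e1] at h4
    have : ((-8 : ℤ).natAbs : ℤ) = 8 := rfl
    rw [this] at h4
    linarith

theorem nd_sub (δ : ℤ) (N : Finset ℕ) : Nd δ N ⊆ N := by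
  unfold Nd
  split_ifs
  · exact Finset.erase_subset _ _
  · exact Finset.Subset.refl _

/-- a product of different primes is a rational square only if it is empty -/
theorem nsq {J : Finset ℕ} (hJ : ∀ p ∈ J, p.Prime) (h : IsSquare (∏ l ∈ J, (l : ℚ))) : J = ∅ := by
  refine Pool.Agent.XV.T.pr_nsq hJ ?_
  unfold pr
  push_cast
  exact h

theorem nd_ne {δ : ℤ} {N : Finset ℕ} {d : ℤ} (h : Ev δ N d) : Nd δ N ≠ ∅ := by
  intro h0
  have e := d_eq h
  rw [h0, Finset.prod_empty] at e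
  obtain ⟨-, -, -, ⟨-, h3, -⟩, h4⟩ := h
  omega

theorem pz_prod {δ : ℤ} {N : Finset ℕ} {d : ℤ} (h : Ev δ N d) : ∏ q ∈ N, pz δ q = d ∨
    ∏ q ∈ N, pz δ q = -d := by
  have e := d_eq h
  obtain ⟨hδ, hN, h2, -, -⟩ := h
  have hps : ∀ M : Finset ℕ, 2 ∉ M → ((∏ q ∈ M, pz δ q) = ∏ l ∈ M, (l : ℤ) ∨
      (∏ q ∈ M, pz δ q) = -∏ l ∈ M, (l : ℤ)) := by
    intro M
    induction M using Finset.induction_on with
    | empty => intro _; left; rfl
    | insert a s ha ih =>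
      intro hM
      rw [Finset.prod_insert ha, Finset.prod_insert ha]
      have ha2 : a ≠ 2 := by rintro rfl; exact hM (Finset.mem_insert_self _ _)
      have h1 : pz δ a = a ∨ pz δ a = -(a : ℤ) := by
        unfold pz ps
        rw [if_neg ha2]
        split_ifs
        · left; rfl
        · right; rfl
      rcases h1 with h1 | h1 <;> rcases ih (fun h => hM (Finset.mem_insert_of_mem h)) with h2 | h2 <;>
        rw [h1, h2]
      · left; ring
      · right; ring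
      · right; ring
      · left; ring
  have e3 : ∏ q ∈ N, pz δ q = pz δ 2 * ∏ q ∈ N.erase 2, pz δ q :=
    (Finset.mul_prod_erase N (fun q => pz δ q) h2).symm
  have e4 : ∏ l ∈ N, (l : ℤ) = 2 * ∏ l ∈ N.erase 2, (l : ℤ) :=
    (Finset.mul_prod_erase N (fun l : ℕ => (l : ℤ)) h2).symm
  rw [e, e3]
  unfold Nd
  rcases hδ with rfl | rfl | rfl
  · rw [if_pos rfl, show pz (-4) 2 = -1 from rfl]
    rcases hps (N.erase 2) (Finset.notMem_erase _ _) with h | h <;> rw [h]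
    · left; ring
    · right; ring
  · rw [if_neg (by norm_num), show pz 8 2 = 2 from rfl, e4]
    rcases hps (N.erase 2) (Finset.notMem_erase _ _) with h | h <;> rw [h]
    · right; ring
    · left; ring
  · rw [if_neg (by norm_num), show pz (-8) 2 = -2 from rfl, e4]
    rcases hps (N.erase 2) (Finset.notMem_erase _ _) with h | h <;> rw [h]
    · left; ring
    · right; ring

theorem prod_split (A B : Finset ℕ) (f : ℕ → ℚ) : ∏ l ∈ A, f l =
    (∏ l ∈ A \ B, f l) * ∏ l ∈ A ∩ B, f l := by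
  rw [mul_comm, Finset.prod_inter_mul_prod_sdiff]

theorem d_mod {δ : ℤ} {N : Finset ℕ} {d : ℤ} (h : Ev δ N d) : d % 4 = 2 ∨ d % 4 = 3 := by
  have e := d_eq h
  obtain ⟨hδ, hN, h2, ⟨hsg, -, -⟩, -⟩ := h
  have h0 : 2 ∉ N.erase 2 := Finset.notMem_erase _ _
  have hN' : Pe (N.erase 2) := fun p hp => hN p (Finset.mem_of_mem_erase hp)
  have hodd := Od.pr_mod2 hN' h0
  have e1 : (∏ l ∈ N.erase 2, (l : ℤ)) = (pr (N.erase 2) : ℤ) := by unfold pr; push_cast; rfl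
  have e2 : ∏ l ∈ N, (l : ℤ) = 2 * ∏ l ∈ N.erase 2, (l : ℤ) :=
    (Finset.mul_prod_erase N (fun l : ℕ => (l : ℤ)) h2).symm
  have e3 : sg δ N = c2 δ (-1) * sg δ (N.erase 2) := by
    unfold sg ch
    rw [← Finset.mul_prod_erase N (fun p => sy δ p (-1)) h2, Od.sy_two]
  unfold Nd at e
  rcases hδ with rfl | rfl | rfl
  · right
    rw [if_pos rfl, e1] at e
    rw [hsg, Od.c2_neg_one (Or.inl rfl), if_pos (by norm_num)] at e3
    have h5 : sg (-4) (N.erase 2) = 1 := by linarith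
    have h6 := (Od.sg_odd_one hN' h0).1 h5
    omega
  · left
    rw [if_neg (by norm_num), e2, e1] at e
    omega
  · left
    rw [if_neg (by norm_num), e2, e1] at e
    omega

/-- the finiteness and `Ш[2^∞] = 0` -/
theorem kr_nos (h1 : S_CS) (h2 : S_CT) (h3 : S_S1) (h4 : S_S2) (h5 : S_LIN) {δ : ℤ} {N : Finset ℕ}
    {D : ℤ} (hE : Ev δ N D) (hk : Kr δ N) :
    (∀ x : Sha (WZ (aD D) (bD D)), x + x = 0 → x = 0) ∧ Finite (WZ (aD D) (bD D)).toAffine.Point ∧
      ∃ k, Odd k ∧ Nat.card (WZ (aD D) (bD D)).toAffine.Point = 4 * k := by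
  have hd := d_eq hE
  have hNp : ∀ p ∈ Nd δ N, p.Prime := fun p hp => (hE.2.1 p (nd_sub δ N hp)).1
  have hpos : (0 : ℤ) < ∏ l ∈ Nd δ N, (l : ℤ) :=
    Finset.prod_pos fun p hp => by exact_mod_cast (hNp p hp).pos
  have hDneg : D < 0 := by omega
  have hD0 : D ≠ 0 := hDneg.ne
  have hD2 : 0 < D ^ 2 := by positivity
  have ha : 0 < aD D := by unfold aD; omega
  have hbb : 0 < bD D := by unfold bD; positivity
  have hab : 0 < aD D ^ 2 - 4 * bD D := by
    have : aD D ^ 2 - 4 * bD D = 256 * D ^ 2 := by unfold aD bD; ring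
    rw [this]; positivity
  obtain ⟨f1, f2⟩ := h1 (aD D) (bD D) ha hbb hab {1, ∏ q ∈ N, pz δ q} {1, -D} (Set.toFinite _)
    (Set.toFinite _)
    (by
      intro z hz hpc
      obtain ⟨D0, hs, hz0, hg⟩ := h3 δ N D hE z hz hpc
      rcases h5 δ N D hE hk D0 hs hg with h | h
      · left; rw [hz0, h, Finset.prod_empty]
      · right; rw [Set.mem_singleton_iff, hz0, h])
    (by
      intro z hz hz0' hpc
      obtain ⟨D0, hs, hz0, hg⟩ := h4 δ N D hE z hz hz0' hpc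
      rcases hk D0 hs hg with h | h
      · left; rw [hz0, h]; rfl
      · right
        rw [Set.mem_singleton_iff, hz0, h, hd, neg_neg]
        rfl)
  have f3 : Nat.card (selCoc (Pool.Agent.Y668.Wt ((aD D : ℤ) : ℚ) ((bD D : ℤ) : ℚ))) ≤ 4 := by
    refine f2.trans ?_
    have n1 : ({1, ∏ q ∈ N, pz δ q} : Set ℤ).ncard ≤ 2 := Set.ncard_insert_le _ _ |>.trans (by
      rw [Set.ncard_singleton])
    have n2 : ({1, -D} : Set ℤ).ncard ≤ 2 := Set.ncard_insert_le _ _ |>.trans (by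
      rw [Set.ncard_singleton])
    exact (Nat.mul_le_mul n1 n2).trans (by norm_num)
  have e1 : ((aD D : ℤ) : ℚ) = -(9 * (D : ℚ) + 25 * (D : ℚ)) := by unfold aD; push_cast; ring
  have e2 : ((bD D : ℤ) : ℚ) = 9 * (D : ℚ) * (25 * (D : ℚ)) := by unfold bD; push_cast; ring
  have hDq : (D : ℚ) < 0 := by exact_mod_cast hDneg
  have e3 : (D : ℚ) = -(∏ l ∈ Nd δ N, (l : ℚ)) := by rw [hd]; push_cast; ring
  show (∀ x : Sha (Pool.Agent.Y668.Wt ((aD D : ℤ) : ℚ) ((bD D : ℤ) : ℚ)), x + x = 0 → x = 0) ∧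
    Finite (Pool.Agent.Y668.Wt ((aD D : ℤ) : ℚ) ((bD D : ℤ) : ℚ)).toAffine.Point ∧
    ∃ k, Odd k ∧ Nat.card (Pool.Agent.Y668.Wt ((aD D : ℤ) : ℚ) ((bD D : ℤ) : ℚ)).toAffine.Point = 4 * k
  rw [e1, e2] at f1 f3 ⊢
  refine h2 (9 * (D : ℚ)) (25 * (D : ℚ)) (by linarith) (by linarith) (by intro h; linarith) ?_ ?_ ?_
    f1 f3
  · rintro ⟨⟨r, hr⟩, -⟩
    have h6 : IsSquare (∏ l ∈ Nd δ N, (l : ℚ)) := by
      refine ⟨r / 3, ?_⟩
      have : (∏ l ∈ Nd δ N, (l : ℚ)) = -(9 * (D : ℚ)) / 9 := by rw [e3]; ring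
      rw [this, hr]
      ring
    exact nd_ne hE (nsq hNp h6)
  · rintro ⟨⟨r, hr⟩, -⟩
    nlinarith [mul_self_nonneg r]
  · rintro ⟨⟨r, hr⟩, -⟩
    nlinarith [mul_self_nonneg r]

/-- **the equivalence** -/
theorem dsc_of (h1 : S_CS) (h2 : S_CT) (h3 : S_S1) (h4 : S_S2) (h5 : S_LIN) (hR : S_REC)
    (hL2 : S_LO2) (hLO : S_LOO) : S_DSC := by
  intro δ N D hE
  constructor
  · intro hk
    obtain ⟨g1, g2, -⟩ := kr_nos h1 h2 h3 h4 h5 hE hk
    exact ⟨g2, g1⟩
  · rintro ⟨g1, g2⟩ D0 hs hg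
    have hd := d_eq hE
    have hNp : ∀ p ∈ Nd δ N, p.Prime := fun p hp => (hE.2.1 p (nd_sub δ N hp)).1
    have hpos : (0 : ℤ) < ∏ l ∈ Nd δ N, (l : ℤ) :=
      Finset.prod_pos fun p hp => by exact_mod_cast (hNp p hp).pos
    have hDneg : D < 0 := by omega
    have hD0' : D ≠ 0 := hDneg.ne
    have hD2 : 0 < D ^ 2 := by positivity
    have hbb : bD D ≠ 0 := by unfold bD; positivity
    have hab : aD D ^ 2 - 4 * bD D ≠ 0 := by
      have : aD D ^ 2 - 4 * bD D = 256 * D ^ 2 := by unfold aD bD; ring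
      rw [this]; positivity
    have hJ : ∀ p ∈ D0, p.Prime := fun p hp => (hE.2.1 p (hs hp)).1
    have hd0 : (0 : ℤ) < ∏ l ∈ D0, (l : ℤ) :=
      Finset.prod_pos fun p hp => by exact_mod_cast (hJ p hp).pos
    obtain ⟨l1, l2⟩ := hLO δ N D hE D0 hs hg
    have hh2 := hR δ N D hE D0 hs hg
    -- squarefree, not divisible by `4`
    have hsqf : Squarefree (∏ l ∈ D0, l) := by
      have := Pool.Agent.XV.T.pr_sqf hJ
      exact this
    have h4z : ¬ (4 : ℤ) ∣ ∏ l ∈ D0, (l : ℤ) := by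
      intro h
      have h5 : (4 : ℕ) ∣ ∏ l ∈ D0, l := by
        have : ((4 : ℕ) : ℤ) ∣ ((∏ l ∈ D0, l : ℕ) : ℤ) := by push_cast; exact h
        exact_mod_cast this
      have h6 := hsqf 2 (by norm_num; exact h5)
      rw [Nat.isUnit_iff] at h6
      omega
    have hdm := d_mod hE
    have l1' : ∀ (p : ℕ) [Fact p.Prime], LocI ℚ_[p] (aD D) (bD D) (∏ l ∈ D0, (l : ℤ)) := by
      intro p hp
      by_cases h : p = 2
      · subst h
        exact hL2 hp D _ hdm h4z hh2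
      · exact l1 p h
    have hcast : (((∏ l ∈ D0, (l : ℤ)) : ℤ) : ℚ) = ∏ l ∈ D0, (l : ℚ) := by push_cast; rfl
    have hnd : Nd δ N = (if δ = -4 then N.erase 2 else N) := rfl
    have hsq : IsSquare (((∏ l ∈ D0, (l : ℤ)) : ℤ) : ℚ) →
        D0 = ∅ ∨ D0 = if δ = -4 then N.erase 2 else N := by
      intro h
      rw [hcast] at h
      exact Or.inl (nsq hJ h)
    have hDq : (D : ℚ) = -(∏ l ∈ Nd δ N, (l : ℚ)) := by rw [hd]; push_cast; ring
    by_cases hL : LocI ℚ (aD D) (bD D) (∏ l ∈ D0, (l : ℤ))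
    · have hnsD : ¬ IsSquare (-(D : ℚ)) := by
        rw [hDq, neg_neg]
        intro h
        exact nd_ne hE (nsq hNp h)
      rcases t_TOF D hDneg hnsD (∏ l ∈ D0, (l : ℤ)) g1 hL with h | h
      · exact hsq h
      · right
        rw [hcast, hDq, neg_neg] at h
        -- the product of two sets of primes is a square
        have h9 : IsSquare (∏ l ∈ symmDiff D0 (Nd δ N), (l : ℚ)) := by
          obtain ⟨r, hr⟩ := h
          have hI : (∏ l ∈ D0 ∩ Nd δ N, (l : ℚ)) ≠ 0 := by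
            refine Finset.prod_ne_zero_iff.2 fun p hp => ?_
            exact_mod_cast (hJ p (Finset.mem_of_mem_inter_left hp)).ne_zero
          have s1 : (∏ l ∈ D0, (l : ℚ)) = (∏ l ∈ D0 \ Nd δ N, (l : ℚ)) *
              ∏ l ∈ D0 ∩ Nd δ N, (l : ℚ) := prod_split _ _ _
          have s2 : (∏ l ∈ Nd δ N, (l : ℚ)) = (∏ l ∈ Nd δ N \ D0, (l : ℚ)) *
              ∏ l ∈ D0 ∩ Nd δ N, (l : ℚ) := by
            rw [Finset.inter_comm]
            exact prod_split _ _ _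
          have s3 : (∏ l ∈ symmDiff D0 (Nd δ N), (l : ℚ)) = (∏ l ∈ D0 \ Nd δ N, (l : ℚ)) *
              ∏ l ∈ Nd δ N \ D0, (l : ℚ) := by
            rw [symmDiff_def, Finset.sup_eq_union, Finset.prod_union]
            exact disjoint_sdiff_sdiff
          refine ⟨r / ∏ l ∈ D0 ∩ Nd δ N, (l : ℚ), ?_⟩
          rw [s3]
          rw [s1, s2] at hr
          field_simp
          linear_combination hr
        have h11 := nsq (fun p hp => by
          rcases Finset.mem_symmDiff.1 hp with ⟨h, -⟩ | ⟨h, -⟩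
          · exact hJ p h
          · exact hNp p h) h9
        have h12 : D0 = Nd δ N := symmDiff_eq_bot.1 h11
        exact h12
    · by_cases hn1 : IsSquare (((∏ l ∈ D0, (l : ℤ)) : ℤ) : ℚ)
      · exact hsq hn1
      · exfalso
        obtain ⟨x, hx0, hx2⟩ := sha_ex' Pool.Agent.Z702.f_COC Pool.Agent.Z702.f_LOT
          Pool.Agent.Z702.f_COB hbb hab (d := ∏ l ∈ D0, (l : ℤ)) hd0.ne' hn1 (by
            intro h
            apply hn1
            obtain ⟨r, hr⟩ := h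
            have hDq : (D : ℚ) ≠ 0 := by exact_mod_cast hDneg.ne
            refine ⟨r / (16 * D), ?_⟩
            have e : ((aD D : ℤ) : ℚ) ^ 2 - 4 * ((bD D : ℤ) : ℚ) = (16 * (D : ℚ)) ^ 2 := by
              unfold aD bD; push_cast; ring
            rw [e] at hr
            field_simp
            linear_combination hr) hL l1' l2
        exact hx0 (g2 x hx2)

end Pool.Agent.XW.T
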