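import Pool.Agent.XW.T.Stm
import Pool.Agent.XW.Odd

/-!
Project XW-18-3: the two Rédei matrices are transposed to each other (even discriminants).
-/

set_option autoImplicit false

namespace Pool.Agent.XW.T.LIN

open Finset
open Pool.Agent.XW (Dt c2 sy md pe ch sg Pe Jb gen Kr)
open Pool.Agent.XW.T
open Pool.Agent.XW.Od
open Pool.Agent.XV.T (ps)

/-- the additive version of a sign -/
def lg (x : ℤ) : ZMod 2 := if x = 1 then 0 else 1

theorem lg_one : lg 1 = 0 := if_pos rfl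

theorem lg_eq_zero {x : ℤ} : lg x = 0 ↔ x = 1 := by
  unfold lg
  split_ifs with h
  · exact ⟨fun _ => h, fun _ => rfl⟩
  · exact ⟨fun h1 => absurd h1 (by decide), fun h1 => absurd h1 h⟩

theorem lg_mul {x y : ℤ} (hx : x = 1 ∨ x = -1) (hy : y = 1 ∨ y = -1) : lg (x * y) = lg x + lg y := by
  rcases hx with rfl | rfl <;> rcases hy with rfl | rfl <;> decide

theorem lg_prod (a : ℕ → ℤ) (p : ℕ) (S : Finset ℕ)
    (h : ∀ q ∈ S, jacobiSym (a q) p = 1 ∨ jacobiSym (a q) p = -1) :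
    (jacobiSym (∏ q ∈ S, a q) p = 1 ∨ jacobiSym (∏ q ∈ S, a q) p = -1) ∧
    lg (jacobiSym (∏ q ∈ S, a q) p) = ∑ q ∈ S, lg (jacobiSym (a q) p) := by
  classical
  induction S using Finset.induction_on with
  | empty =>
    rw [prod_empty, jacobiSym.one_left, sum_empty]
    exact ⟨Or.inl rfl, rfl⟩
  | insert q S hq ih =>
    obtain ⟨h1, h2⟩ := ih fun r hr => h r (mem_insert_of_mem hr)
    have h3 := h q (mem_insert_self q S)
    rw [prod_insert hq, sum_insert hq, jacobiSym.mul_left, lg_mul h3 h1, h2]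
    refine ⟨?_, rfl⟩
    rcases h3 with e3 | e3 <;> rcases h1 with e1 | e1 <;> rw [e3, e1] <;> norm_num

theorem zmod2 : ∀ c : ZMod 2, c = 0 ∨ c = 1 := by decide

theorem add_self2 (c : ZMod 2) : c + c = 0 := CharTwo.add_self_eq_zero c

/-! ### linear algebra -/

/-- a matrix with a kernel of at most two elements and its transpose -/
theorem transfer {n : Type} [Fintype n] [DecidableEq n] (A : Matrix n n (ZMod 2)) (u e : n → ZMod 2)
    (he : e ≠ 0) (h2 : A.transpose.mulVec e = 0) (h : ∀ v, A.mulVec v = 0 → v = 0 ∨ v = u) :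
    ∀ v, A.transpose.mulVec v = 0 → v = 0 ∨ v = e := by
  have k1 := LinearMap.finrank_range_add_finrank_ker A.mulVecLin
  have k2 := LinearMap.finrank_range_add_finrank_ker A.transpose.mulVecLin
  rw [Module.finrank_fintype_fun_eq_card] at k1 k2
  have e1 : A.rank = Module.finrank (ZMod 2) (LinearMap.range A.mulVecLin) := rfl
  have e2 : A.transpose.rank =
    Module.finrank (ZMod 2) (LinearMap.range A.transpose.mulVecLin) := rfl
  rw [Matrix.rank_transpose] at e2
  have e3 : Module.finrank (ZMod 2) (LinearMap.ker A.mulVecLin) =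
      Module.finrank (ZMod 2) (LinearMap.ker A.transpose.mulVecLin) := by
    omega
  have m2 : e ∈ LinearMap.ker A.transpose.mulVecLin := by
    rw [LinearMap.mem_ker, Matrix.mulVecLin_apply]
    exact h2
  have e4 : Module.finrank (ZMod 2) (LinearMap.ker A.mulVecLin) ≤ 1 := by
    by_cases hu : A.mulVec u = 0
    · have m1 : u ∈ LinearMap.ker A.mulVecLin := by
        rw [LinearMap.mem_ker, Matrix.mulVecLin_apply]
        exact hu
      refine finrank_le_one (⟨u, m1⟩ : LinearMap.ker A.mulVecLin) fun w => ?_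
      have hw : A.mulVec w.1 = 0 := by
        have := w.2
        rw [LinearMap.mem_ker, Matrix.mulVecLin_apply] at this
        exact this
      rcases h w.1 hw with h0 | h0
      · exact ⟨0, by rw [zero_smul]; exact Subtype.ext h0.symm⟩
      · exact ⟨1, by rw [one_smul]; exact Subtype.ext h0.symm⟩
    · refine finrank_le_one (0 : LinearMap.ker A.mulVecLin) fun w => ?_
      have hw : A.mulVec w.1 = 0 := by
        have := w.2
        rw [LinearMap.mem_ker, Matrix.mulVecLin_apply] at this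
        exact this
      rcases h w.1 hw with h0 | h0
      · exact ⟨0, by rw [zero_smul]; exact Subtype.ext h0.symm⟩
      · exact absurd (h0 ▸ hw) hu
  rw [e3] at e4
  obtain ⟨v0, hv0⟩ := finrank_le_one_iff.1 e4
  have hne : (⟨e, m2⟩ : LinearMap.ker A.transpose.mulVecLin) ≠ 0 := by
    intro h0
    exact he (congrArg Subtype.val h0)
  have hv : v0 = ⟨e, m2⟩ := by
    obtain ⟨c, hc⟩ := hv0 ⟨e, m2⟩
    rcases zmod2 c with rfl | rfl
    · rw [zero_smul] at hc
      exact absurd hc.symm hne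
    · rw [one_smul] at hc
      exact hc
  intro v hv'
  have mv : v ∈ LinearMap.ker A.transpose.mulVecLin := by
    rw [LinearMap.mem_ker, Matrix.mulVecLin_apply]
    exact hv'
  obtain ⟨c, hc⟩ := hv0 ⟨v, mv⟩
  rcases zmod2 c with rfl | rfl
  · rw [zero_smul] at hc
    exact Or.inl (congrArg Subtype.val hc).symm
  · rw [one_smul, hv] at hc
    exact Or.inr (congrArg Subtype.val hc).symm

/-! ### the symbols -/

theorem ps_natAbs (q : ℕ) : (ps q).natAbs = q := by
  unfold ps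
  split_ifs
  · exact Int.natAbs_natCast q
  · rw [Int.natAbs_neg, Int.natAbs_natCast]

theorem ps_mod {q : ℕ} (hq : q % 2 = 1) : ps q % 4 = 1 := by
  unfold ps
  split_ifs <;> omega

theorem pz_ne {δ : ℤ} {q : ℕ} (h : q ≠ 2) : pz δ q = ps q := if_neg h

theorem four_pz_two {δ : ℤ} (hδ : Dt δ) : 4 * pz δ 2 = δ := by
  unfold pz
  rw [if_pos rfl]
  rcases hδ with rfl | rfl | rfl <;> norm_num

theorem odd_of {N : Finset ℕ} (hN : Pe N) {p : ℕ} (hp : p ∈ N) (h2 : p ≠ 2) : p % 2 = 1 :=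
  ((hN p hp).1.eq_two_or_odd).resolve_left h2

theorem s2_ne {p : ℕ} (h : p ≠ 2) (c : ℤ) : s2 p c = jacobiSym c p := if_neg h

theorem s2_two (c : ℤ) : s2 2 c = if c % 8 = 1 then 1 else -1 := if_pos rfl

theorem s22_mul {c d : ℤ} (hc : c % 4 = 1) (hd : d % 4 = 1) : s2 2 (c * d) = s2 2 c * s2 2 d := by
  rw [s2_two, s2_two, s2_two, Int.mul_emod]
  have h1 : c % 8 = 1 ∨ c % 8 = 5 := by omega
  have h2 : d % 8 = 1 ∨ d % 8 = 5 := by omega
  rcases h1 with h1 | h1 <;> rcases h2 with h2 | h2 <;> rw [h1, h2] <;> norm_num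

theorem s22_pm (c : ℤ) : s2 2 c = 1 ∨ s2 2 c = -1 := by
  rw [s2_two]
  split_ifs
  · left; rfl
  · right; rfl

theorem pz_pm {δ : ℤ} (hδ : Dt δ) {N : Finset ℕ} (hN : Pe N) {p q : ℕ} (hp : p ∈ N) (h2 : p ≠ 2)
    (hq : q ∈ N) (h : q ≠ p) : jacobiSym (pz δ q) p = 1 ∨ jacobiSym (pz δ q) p = -1 := by
  apply jacobiSym.eq_one_or_neg_one
  rw [Int.gcd_eq_natAbs, Int.natAbs_natCast]
  have hpo : Nat.Coprime 2 p := by
    rw [Nat.coprime_two_left]
    exact Nat.odd_iff.2 (odd_of hN hp h2)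
  by_cases hq2 : q = 2
  · subst hq2
    have h3 : (pz δ 2).natAbs ∣ 2 := by
      unfold pz
      rw [if_pos rfl]
      rcases hδ with rfl | rfl | rfl
      · rw [if_pos rfl]; exact one_dvd 2
      · rw [if_neg (by norm_num)]; exact dvd_refl 2
      · rw [if_neg (by norm_num)]; exact dvd_refl 2
    exact Nat.Coprime.coprime_dvd_left h3 hpo
  · rw [pz_ne hq2, ps_natAbs]
    exact (Nat.coprime_primes (hN q hq).1 (hN p hp).1).2 h

theorem s2_pm {δ : ℤ} (hδ : Dt δ) {N : Finset ℕ} (hN : Pe N) {p q : ℕ} (hp : p ∈ N)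
    (hq : q ∈ N) (h : q ≠ p) : s2 p (pz δ q) = 1 ∨ s2 p (pz δ q) = -1 := by
  by_cases h2 : p = 2
  · subst h2
    exact s22_pm _
  · rw [s2_ne h2]
    exact pz_pm hδ hN hp h2 hq h

theorem s2_prod {δ : ℤ} (hδ : Dt δ) {N : Finset ℕ} (hN : Pe N) {p : ℕ} (hp : p ∈ N) {S : Finset ℕ}
    (hS : S ⊆ N) (hpS : p ∉ S) :
    lg (s2 p (∏ q ∈ S, pz δ q)) = ∑ q ∈ S, lg (s2 p (pz δ q)) := by
  classical
  by_cases h2 : p = 2
  · subst h2
    have key : (∏ q ∈ S, pz δ q) % 4 = 1 ∧
        lg (s2 2 (∏ q ∈ S, pz δ q)) = ∑ q ∈ S, lg (s2 2 (pz δ q)) := by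
      induction S using Finset.induction_on with
      | empty =>
        rw [prod_empty, sum_empty, s2_two]
        exact ⟨rfl, rfl⟩
      | insert q S hq ih =>
        obtain ⟨h1, h3⟩ := ih (fun r hr => hS (mem_insert_of_mem hr))
          (fun hr => hpS (mem_insert_of_mem hr))
        have hq2 : q ≠ 2 := fun e => hpS (e ▸ mem_insert_self q S)
        have h4 : pz δ q % 4 = 1 := by
          rw [pz_ne hq2]
          exact ps_mod (odd_of hN (hS (mem_insert_self q S)) hq2)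
        rw [prod_insert hq, sum_insert hq, s22_mul h4 h1, lg_mul (s22_pm _) (s22_pm _), h3]
        refine ⟨?_, rfl⟩
        rw [Int.mul_emod, h4, h1]
        rfl
    exact key.2
  · have h3 := (lg_prod (pz δ) p S fun q hq =>
      pz_pm hδ hN hp h2 (hS hq) (fun e => hpS (e ▸ hq))).2
    rw [s2_ne h2, h3]
    exact sum_congr rfl fun q _ => by rw [s2_ne h2]

/-- the entries of the first matrix away from the diagonal -/
def Rs (δ : ℤ) (p q : ℕ) : ZMod 2 := if q = p then 0 else lg (s2 p (pz δ q))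

/-- the entries of the second matrix -/
def Cs (δ : ℤ) (N : Finset ℕ) (p q : ℕ) : ZMod 2 :=
  if q = p then lg (jacobiSym ((pe δ N / p : ℕ) : ℤ) p) else lg (jacobiSym (q : ℤ) p)

theorem keyR {δ : ℤ} (hδ : Dt δ) {N : Finset ℕ} (hN : Pe N) {D0 : Finset ℕ} (hD : D0 ⊆ N) {p : ℕ}
    (hp : p ∈ N) : lg (genS δ N D0 p) =
      ∑ q ∈ N, Rs δ p q * ((if q ∈ D0 then 1 else 0) + (if p ∈ D0 then 1 else 0)) := by
  classical
  unfold genS
  by_cases hpD : p ∈ D0
  · rw [if_pos hpD, if_pos hpD]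
    have h2 : ∀ q ∈ N \ D0, q ≠ p := by
      intro q hq h
      exact (mem_sdiff.1 hq).2 (h ▸ hpD)
    rw [s2_prod hδ hN hp sdiff_subset (fun h => (mem_sdiff.1 h).2 hpD)]
    rw [← Finset.sum_subset (sdiff_subset : N \ D0 ⊆ N)]
    · refine Finset.sum_congr rfl fun q hq => ?_
      unfold Rs
      rw [if_neg (h2 q hq), if_neg (mem_sdiff.1 hq).2, zero_add, mul_one]
    · intro q hq hq'
      have : q ∈ D0 := by
        by_contra h
        exact hq' (mem_sdiff.2 ⟨hq, h⟩)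
      rw [if_pos this, add_self2, mul_zero]
  · rw [if_neg hpD, if_neg hpD]
    have h2 : ∀ q ∈ D0, q ≠ p := by
      intro q hq h
      exact hpD (h ▸ hq)
    rw [s2_prod hδ hN hp hD hpD, ← Finset.sum_subset hD]
    · refine Finset.sum_congr rfl fun q hq => ?_
      unfold Rs
      rw [if_neg (h2 q hq), if_pos hq, add_zero, mul_one]
    · intro q hq hq'
      rw [if_neg hq', add_zero, mul_zero]

theorem q_pm {N : Finset ℕ} (hN : Pe N) {p q : ℕ} (hp : p ∈ N) (hq : q ∈ N) (h : q ≠ p) :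
    jacobiSym ((fun r : ℕ => (r : ℤ)) q) p = 1 ∨ jacobiSym ((fun r : ℕ => (r : ℤ)) q) p = -1 := by
  apply jacobiSym.eq_one_or_neg_one
  show Int.gcd (q : ℤ) (p : ℤ) = 1
  rw [Int.gcd_natCast_natCast]
  exact (Nat.coprime_primes (hN q hq).1 (hN p hp).1).2 h

theorem pe_div {δ : ℤ} {N : Finset ℕ} (hN : Pe N) {p : ℕ} (hp : p ∈ N) (h2 : p ≠ 2) :
    pe δ N / p = pe δ (N.erase p) := by
  rw [pe_erase hp, md_ne h2]
  exact Nat.mul_div_cancel_left _ (hN p hp).1.pos

theorem pe_div_pm {δ : ℤ} (hδ : Dt δ) {N : Finset ℕ} (hN : Pe N) {p : ℕ} (hp : p ∈ N) (h2 : p ≠ 2) :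
    jacobiSym ((pe δ N / p : ℕ) : ℤ) p = 1 ∨ jacobiSym ((pe δ N / p : ℕ) : ℤ) p = -1 := by
  apply jacobiSym.eq_one_or_neg_one
  rw [Int.gcd_natCast_natCast, pe_div hN hp h2]
  have h3 : ¬ p ∣ pe δ (N.erase p) := by
    rw [prime_dvd_pe hδ (Pe.mono hN (erase_subset _ _)) (hN p hp).1]
    simp
  exact ((Nat.Prime.coprime_iff_not_dvd (hN p hp).1).2 h3).symm

theorem keyC {δ : ℤ} (hδ : Dt δ) {N : Finset ℕ} (hN : Pe N) {D : Finset ℕ} (hD : D ⊆ N) {p : ℕ}
    (hp : p ∈ N) (h2 : p ≠ 2) : lg (gen δ N D p) = ∑ q ∈ N, Cs δ N p q * (if q ∈ D then 1 else 0) := by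
  classical
  have hs : ∑ q ∈ N, Cs δ N p q * (if q ∈ D then 1 else 0) = ∑ q ∈ D, Cs δ N p q := by
    rw [← Finset.sum_subset hD]
    · exact sum_congr rfl fun q hq => by rw [if_pos hq, mul_one]
    · intro q _ hq
      rw [if_neg hq, mul_zero]
  rw [hs]
  unfold gen
  by_cases hpD : p ∈ D
  · rw [if_pos hpD]
    have e1 : (∏ l ∈ D, l) / p = ∏ l ∈ D.erase p, l := by
      rw [← Finset.mul_prod_erase D (fun l => l) hpD]
      exact Nat.mul_div_cancel_left _ (hN p hp).1.pos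
    have h3 := lg_prod (fun r : ℕ => (r : ℤ)) p (D.erase p) fun q hq =>
      q_pm hN hp (hD (mem_of_mem_erase hq)) (ne_of_mem_erase hq)
    have e2 : (((∏ l ∈ D.erase p, l : ℕ)) : ℤ) = ∏ l ∈ D.erase p, (l : ℤ) := by push_cast; rfl
    rw [e1, Nat.cast_mul, jacobiSym.mul_left, e2, lg_mul h3.1 (pe_div_pm hδ hN hp h2), h3.2,
      ← Finset.add_sum_erase D _ hpD, add_comm]
    have e3 : Cs δ N p p = lg (jacobiSym ((pe δ N / p : ℕ) : ℤ) p) := if_pos rfl
    rw [e3]
    congr 1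
    refine sum_congr rfl fun q hq => ?_
    unfold Cs
    rw [if_neg (ne_of_mem_erase hq)]
  · rw [if_neg hpD]
    have hne : ∀ q ∈ D, q ≠ p := fun q hq e => hpD (e ▸ hq)
    have h3 := lg_prod (fun r : ℕ => (r : ℤ)) p D fun q hq => q_pm hN hp (hD hq) (hne q hq)
    have e2 : (((∏ l ∈ D, l : ℕ)) : ℤ) = ∏ l ∈ D, (l : ℤ) := by push_cast; rfl
    rw [e2, h3.2]
    refine sum_congr rfl fun q hq => ?_
    unfold Cs
    rw [if_neg (hne q hq)]

/-! ### reciprocity -/

theorem reci {p q : ℕ} (hp : p % 2 = 1) (hq : q % 2 = 1) : jacobiSym (ps q) p = jacobiSym p q := by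
  have hpo : Odd p := Nat.odd_iff.2 hp
  have hqo : Odd q := Nat.odd_iff.2 hq
  unfold ps
  split_ifs with h
  · rw [jacobiSym.quadratic_reciprocity_one_mod_four h hpo]
  · have h3 : q % 4 = 3 := by omega
    have h1 : p % 4 = 1 ∨ p % 4 = 3 := by omega
    rw [jacobiSym.neg _ hpo]
    rcases h1 with h1 | h1
    · rw [ZMod.χ₄_nat_one_mod_four h1, one_mul,
        jacobiSym.quadratic_reciprocity_one_mod_four' hqo h1]
    · rw [ZMod.χ₄_nat_three_mod_four h1,
        jacobiSym.quadratic_reciprocity_three_mod_four h3 h1]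
      ring

theorem reci2 {q : ℕ} (hq : q % 2 = 1) : s2 2 (ps q) = jacobiSym ((2 : ℕ) : ℤ) q := by
  have e : ((2 : ℕ) : ℤ) = 2 := rfl
  rw [s2_two, e, jacobiSym.at_two (Nat.odd_iff.2 hq), ZMod.χ₈_nat_eq_if_mod_eight,
    if_neg (show ¬ q % 2 = 0 by omega)]
  unfold ps
  by_cases h4 : q % 4 = 1
  · rw [if_pos h4]
    by_cases h8 : q % 8 = 1
    · rw [if_pos (by omega), if_pos (Or.inl h8)]
    · rw [if_neg (by omega), if_neg (by omega)]
  · rw [if_neg h4]
    by_cases h8 : q % 8 = 7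
    · rw [if_pos (by omega), if_pos (Or.inr h8)]
    · rw [if_neg (by omega), if_neg (by omega)]

theorem rel {δ : ℤ} {N : Finset ℕ} (hN : Pe N) {p q : ℕ} (hp : p ∈ N) (hq : q ∈ N) (hq2 : q ≠ 2)
    (h : p ≠ q) : Rs δ p q = Cs δ N q p := by
  unfold Rs Cs
  rw [if_neg (Ne.symm h), if_neg h, pz_ne hq2]
  have hqo := odd_of hN hq hq2
  by_cases hp2 : p = 2
  · subst hp2
    rw [reci2 hqo]
  · rw [s2_ne hp2, reci (odd_of hN hp hp2) hqo]

theorem ps_sign {p : ℕ} (hp : p % 2 = 1) : ps p = jacobiSym (-1) p * p := by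
  unfold ps
  split_ifs with h
  · rw [(js_neg_one hp).1.2 h, one_mul]
  · rw [(js_neg_one hp).2.2 (by omega)]
    ring

theorem four_prod {δ : ℤ} (hδ : Dt δ) {S : Finset ℕ} (hS : Pe S) (h2 : 2 ∈ S) :
    4 * ∏ q ∈ S, pz δ q = sg δ S * (pe δ S : ℤ) := by
  classical
  have hE : Pe (S.erase 2) := Pe.mono hS (erase_subset _ _)
  have h1 : ∏ q ∈ S.erase 2, pz δ q = sg δ (S.erase 2) * (pe δ (S.erase 2) : ℤ) := by
    unfold sg ch pe
    push_cast
    rw [← prod_mul_distrib]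
    refine prod_congr rfl fun q hq => ?_
    have hq2 := ne_of_mem_erase hq
    rw [pz_ne hq2, sy_ne hq2, md_ne hq2]
    exact ps_sign (odd_of hS (mem_of_mem_erase hq) hq2)
  have e1 : sg δ S = c2 δ (-1) * sg δ (S.erase 2) := by
    unfold sg
    rw [ch_erase h2, sy_two]
  have e2 : (pe δ S : ℤ) = (δ.natAbs : ℤ) * (pe δ (S.erase 2) : ℤ) := by
    rw [pe_erase h2, md_two]
    push_cast
    rfl
  rw [← Finset.mul_prod_erase S _ h2, ← mul_assoc, four_pz_two hδ, h1, e1, e2]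
  have e3 := c2_neg_one_mul hδ
  calc δ * (sg δ (S.erase 2) * (pe δ (S.erase 2) : ℤ))
      = (c2 δ (-1) * (δ.natAbs : ℤ)) * (sg δ (S.erase 2) * (pe δ (S.erase 2) : ℤ)) := by rw [e3]
    _ = _ := by ring

theorem rel_diag {δ : ℤ} (hδ : Dt δ) {N : Finset ℕ} (hN : Pe N) (h2N : 2 ∈ N) (hsg : sg δ N = -1)
    {p : ℕ} (hp : p ∈ N) (h2 : p ≠ 2) : ∑ r ∈ N, Rs δ p r = Cs δ N p p := by
  classical
  have hpo := odd_of hN hp h2
  have e0 : Rs δ p p = 0 := if_pos rfl
  rw [← Finset.add_sum_erase N _ hp, e0, zero_add]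
  have e1 : ∑ r ∈ N.erase p, Rs δ p r = lg (s2 p (∏ r ∈ N.erase p, pz δ r)) := by
    rw [s2_prod hδ hN hp (erase_subset _ _) (by simp)]
    refine sum_congr rfl fun r hr => ?_
    unfold Rs
    rw [if_neg (ne_of_mem_erase hr)]
  have e2 : Cs δ N p p = lg (jacobiSym ((pe δ N / p : ℕ) : ℤ) p) := if_pos rfl
  rw [e1, e2, s2_ne h2, pe_div hN hp h2]
  have hS : Pe (N.erase p) := Pe.mono hN (erase_subset _ _)
  have h4 := four_prod hδ hS (mem_erase.2 ⟨Ne.symm h2, h2N⟩)
  have j4 : jacobiSym 4 p = 1 := by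
    rw [show (4 : ℤ) = 2 ^ 2 by norm_num]
    refine jacobiSym.sq_one' ?_
    rw [show (2 : ℤ) = ((2 : ℕ) : ℤ) by norm_num, Int.gcd_natCast_natCast]
    exact (Nat.coprime_two_left).2 (Nat.odd_iff.2 hpo)
  have h5 : jacobiSym (∏ r ∈ N.erase p, pz δ r) p =
      jacobiSym (sg δ (N.erase p)) p * jacobiSym (pe δ (N.erase p) : ℤ) p := by
    rw [← jacobiSym.mul_left, ← h4, jacobiSym.mul_left, j4, one_mul]
  have h6 : sg δ N = jacobiSym (-1) p * sg δ (N.erase p) := by
    unfold sg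
    rw [ch_erase hp, sy_ne h2]
  have h7 : jacobiSym (sg δ (N.erase p)) p = 1 := by
    rw [hsg] at h6
    have h8 : p % 4 = 1 ∨ p % 4 = 3 := by omega
    rcases h8 with h8 | h8
    · have e : jacobiSym (-1) p = 1 := (js_neg_one hpo).1.2 h8
      rw [e, one_mul] at h6
      rw [← h6, e]
    · have e : jacobiSym (-1) p = -1 := (js_neg_one hpo).2.2 h8
      rw [e] at h6
      have h9 : sg δ (N.erase p) = 1 := by linarith
      rw [h9, jacobiSym.one_left]
  rw [h5, h7, one_mul]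

/-! ### the kernels -/

/-- the characteristic vector -/
def ind {N : Finset ℕ} (D0 : Finset ℕ) : N → ZMod 2 := fun q => if (q : ℕ) ∈ D0 then 1 else 0

theorem vec_eq {N : Finset ℕ} (v : N → ZMod 2) : ∃ D0 ⊆ N, v = ind D0 := by
  classical
  refine ⟨(univ.filter fun q : N => v q = 1).map (Function.Embedding.subtype fun q => q ∈ N),
    ?_, ?_⟩
  · intro q hq
    rw [mem_map] at hq
    obtain ⟨r, -, rfl⟩ := hq
    exact r.2
  · funext q
    unfold ind
    have hiff : ((q : ℕ) ∈ (univ.filter fun q : N => v q = 1).map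
        (Function.Embedding.subtype fun q => q ∈ N)) ↔ v q = 1 := by
      rw [mem_map]
      constructor
      · rintro ⟨r, hr, hrq⟩
        have : r = q := Subtype.ext hrq
        rw [← this]
        exact (mem_filter.1 hr).2
      · intro h
        exact ⟨q, mem_filter.2 ⟨mem_univ _, h⟩, rfl⟩
    by_cases h : v q = 1
    · rw [if_pos (hiff.2 h), h]
    · rw [if_neg fun h' => h (hiff.1 h')]
      have : ∀ a : ZMod 2, a ≠ 1 → a = 0 := by decide
      exact this _ h

/-- the second matrix, with a row of zeros at `2` -/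
def Mx (δ : ℤ) (N : Finset ℕ) : Matrix N N (ZMod 2) := fun p q =>
  if (p : ℕ) = 2 then 0 else Cs δ N p q

theorem Mx_ker {δ : ℤ} (hδ : Dt δ) {N : Finset ℕ} (hN : Pe N) (hK : Kr δ N) (v : N → ZMod 2)
    (hv : (Mx δ N).mulVec v = 0) : v = 0 ∨ v = ind (if δ = -4 then N.erase 2 else N) := by
  classical
  obtain ⟨D, hD, rfl⟩ := vec_eq v
  have h1 : ∀ p ∈ N.erase 2, gen δ N D p = 1 := by
    intro p hp
    have hpN := mem_of_mem_erase hp
    have hp2 := ne_of_mem_erase hp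
    rw [← lg_eq_zero, keyC hδ hN hD hpN hp2]
    have h2 := congrFun hv ⟨p, hpN⟩
    unfold Mx Matrix.mulVec dotProduct at h2
    have h3 : (∑ q : N, (if ((⟨p, hpN⟩ : N) : ℕ) = 2 then 0 else Cs δ N (⟨p, hpN⟩ : N) q) *
        ind D q) = ∑ q ∈ N, Cs δ N p q * (if q ∈ D then 1 else 0) := by
      rw [← Finset.sum_coe_sort N (fun q => Cs δ N p q * (if q ∈ D then 1 else 0))]
      refine sum_congr rfl fun q _ => ?_
      rw [if_neg hp2]
      rfl
    rw [← h3]
    exact h2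
  rcases hK D hD h1 with h | h
  · left
    rw [h]
    funext q
    exact if_neg (notMem_empty _)
  · right
    rw [h]

theorem main : S_LIN := by
  classical
  intro δ N d hE hK D0 hD hg
  obtain ⟨hδ, hN, h2N, hJ, -⟩ := hE
  obtain ⟨two, htwo⟩ : ∃ two : N, two = ⟨2, h2N⟩ := ⟨_, rfl⟩
  have htwo' : (two : ℕ) = 2 := by rw [htwo]
  have hR : ∀ p ∈ N, ∑ q ∈ N, Rs δ p q * ((if q ∈ D0 then 1 else 0) + (if p ∈ D0 then 1 else 0)) =
      (0 : ZMod 2) := by
    intro p hp
    rw [← keyR hδ hN hD hp, hg p hp, lg_one]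
  obtain ⟨v, hv⟩ : ∃ v : ℕ → ZMod 2, v = fun q => if q ∈ D0 then 1 else 0 := ⟨_, rfl⟩
  have hR' : ∀ p ∈ N, ∑ q ∈ N, Rs δ p q * (v q + v p) = 0 := by
    intro p hp
    rw [hv]
    exact hR p hp
  have hT := transfer (Mx δ N) (ind (if δ = -4 then N.erase 2 else N)) (Pi.single two 1)
    (by
      intro h
      have h1 := congrFun h two
      rw [Pi.single_eq_same] at h1
      have h2 : (1 : ZMod 2) = 0 := h1
      exact absurd h2 (by decide))
    (by
      funext p
      rw [Matrix.mulVec_single_one]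
      show Mx δ N two p = 0
      unfold Mx
      rw [if_pos htwo'])
    (Mx_ker hδ hN hK)
  have hw : (Mx δ N).transpose.mulVec (fun q : N => v q + v 2) = 0 := by
    funext p
    show ∑ q : N, Mx δ N q p * (v q + v 2) = 0
    have h1 : ∀ q : N, Mx δ N q p * (v q + v 2) =
        (Rs δ p q + if (p : ℕ) = q then ∑ r ∈ N, Rs δ p r else 0) * (v q + v 2) := by
      intro q
      by_cases hq2 : (q : ℕ) = 2
      · rw [hq2, add_self2, mul_zero, mul_zero]
      · unfold Mx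
        rw [if_neg hq2]
        by_cases hpq : (p : ℕ) = q
        · rw [if_pos hpq, hpq, rel_diag hδ hN h2N hJ.1 q.2 hq2]
          have e0 : Rs δ q q = 0 := if_pos rfl
          rw [e0, zero_add]
        · rw [if_neg hpq, add_zero, rel hN p.2 q.2 hq2 hpq]
    rw [sum_congr rfl fun q _ => h1 q,
      Finset.sum_coe_sort N (fun q => (Rs δ p q + if (p : ℕ) = q then ∑ r ∈ N, Rs δ p r else 0) *
        (v q + v 2))]
    have h2 : ∀ q ∈ N, (Rs δ p q + if (p : ℕ) = q then ∑ r ∈ N, Rs δ p r else 0) * (v q + v 2) =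
        Rs δ p q * (v q + v 2) + if (p : ℕ) = q then (∑ r ∈ N, Rs δ p r) * (v q + v 2) else 0 := by
      intro q _
      split_ifs <;> ring
    rw [sum_congr rfl h2, sum_add_distrib, Finset.sum_ite_eq, if_pos p.2, sum_mul,
      ← sum_add_distrib, ← hR' p p.2]
    refine sum_congr rfl fun q _ => ?_
    have e := add_self2 (v 2)
    calc Rs δ p q * (v q + v 2) + Rs δ p q * (v p + v 2)
        = Rs δ p q * (v q + v p + (v 2 + v 2)) := by ring
      _ = _ := by rw [e, add_zero]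
  have hz : (fun q : N => v q + v 2) = 0 := by
    rcases hT _ hw with h | h
    · exact h
    · exfalso
      have h1 := congrFun h two
      rw [Pi.single_eq_same] at h1
      have h2 : v two + v 2 = 1 := h1
      rw [htwo', add_self2] at h2
      exact absurd h2 (by decide)
  have hc : ∀ q ∈ N, v q = v 2 := by
    intro q hq
    have h1 : v q + v 2 = 0 := congrFun hz ⟨q, hq⟩
    have h2 : v q + v 2 + v 2 = v 2 := by rw [h1, zero_add]
    rw [add_assoc, add_self2, add_zero] at h2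
    exact h2
  by_cases h2D : 2 ∈ D0
  · right
    refine Subset.antisymm hD fun q hq => ?_
    by_contra hcon
    have h1 := hc q hq
    rw [hv] at h1
    have h3 : (if q ∈ D0 then (1 : ZMod 2) else 0) = if 2 ∈ D0 then 1 else 0 := h1
    rw [if_neg hcon, if_pos h2D] at h3
    exact absurd h3 (by decide)
  · left
    rw [eq_empty_iff_forall_notMem]
    intro q hq
    have h1 := hc q (hD hq)
    rw [hv] at h1
    have h3 : (if q ∈ D0 then (1 : ZMod 2) else 0) = if 2 ∈ D0 then 1 else 0 := h1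
    rw [if_pos hq, if_neg h2D] at h3
    exact absurd h3 (by decide)

end Pool.Agent.XW.T.LIN

namespace Pool.Agent.XW.T

/-- XW-18-3: the two kernels -/
theorem t_LIN : S_LIN := LIN.main

end Pool.Agent.XW.T
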