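import Pool.Agent.XW.T.Stm
import Pool.Agent.Z702.LocZ

/-!
# Project XW-18-6: local solubility at `2` of the isogenous curve, even discriminants

Explicit points on `y² = x (x + 4 d) (x + 64 d)` over `ℚ_2` in the class of `z`.
-/

set_option autoImplicit false

namespace Pool.Agent.XW.T

open Pool.Agent.Z702 (LocI padic_sq2)
open Pool.Agent.XV.T (aD bD)

/-- a point with integral `X` -/
lemma lo_X {K : Type} [Field K] [CharZero K] {D d X c e f : ℤ} (hX : X ≠ 0) (hd : d ≠ 0)
    (h1 : IsSquare ((c : ℤ) : K)) (h2 : X * (X + 4 * D) * (X + 64 * D) = f ^ 2 * c)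
    (h3 : IsSquare ((e : ℤ) : K)) (g : ℤ) (h4 : X * d = g ^ 2 * e) : LocI K (aD D) (bD D) d := by
  obtain ⟨s, hs⟩ := h1
  obtain ⟨t, ht⟩ := h3
  have hX' : (X : K) ≠ 0 := by exact_mod_cast hX
  have hd' : (d : K) ≠ 0 := by exact_mod_cast hd
  have h2' := congrArg (Int.cast : ℤ → K) h2
  have h4' := congrArg (Int.cast : ℤ → K) h4
  push_cast at h2' h4'
  refine ⟨X, f * s, g * t / d, hX', ?_, ?_⟩
  · unfold aD bD
    push_cast
    linear_combination -h2' - (f : K) ^ 2 * hs
  · field_simp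
    linear_combination h4' + (g : K) ^ 2 * ht

/-- the class of a square -/
lemma lo_one {K : Type} [Field K] [CharZero K] {d z : ℤ} (hz : z ≠ 0)
    (h1 : IsSquare (((z * (z + 256 * d) * (z + 4096 * d) : ℤ)) : K)) :
    LocI K (aD d) (bD d) z := by
  obtain ⟨s, hs⟩ := h1
  have hz' : (z : K) ≠ 0 := by exact_mod_cast hz
  push_cast at hs
  refine ⟨z / 64, s / 512, 1 / 8, div_ne_zero hz' (by norm_num), ?_, by ring⟩
  unfold aD bD
  push_cast
  field_simp
  linear_combination -262144 * hs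

/-- both even -/
lemma lo_t {K : Type} [Field K] [CharZero K] {u v t k : ℤ} (hu : u ≠ 0) (hv : v ≠ 0) (ht : u ≠ t)
    (ht' : u ≠ 16 * t) (hk : k ^ 2 = 115200 * t)
    (h1 : IsSquare (((-u * v * (u - 16 * t) * (u - t) : ℤ)) : K)) :
    LocI K (aD (2 * v)) (bD (2 * v)) (2 * u) := by
  obtain ⟨s, hs⟩ := h1
  have hu' : (u : K) ≠ 0 := by exact_mod_cast hu
  have hv' : (v : K) ≠ 0 := by exact_mod_cast hv
  have e1 : (u : K) - t ≠ 0 := by
    rw [sub_ne_zero]
    exact_mod_cast ht
  have e2 : (u : K) - 16 * t ≠ 0 := by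
    rw [sub_ne_zero]
    exact_mod_cast ht'
  have hk' := congrArg (Int.cast : ℤ → K) hk
  push_cast at hs hk'
  refine ⟨-8 * v * (u - 16 * t) / (u - t), k * v * s / (u - t) ^ 2, 2 * s / (u * (u - t)), ?_, ?_, ?_⟩
  · refine div_ne_zero (mul_ne_zero (mul_ne_zero (by norm_num) hv') e2) e1
  · unfold aD bD
    push_cast
    field_simp
    linear_combination s ^ 2 * hk' - 115200 * t * hs
  · push_cast
    field_simp
    linear_combination 8 * hs

lemma lo_mul {x y a b : ℤ} (hx : x % 8 = a) (hy : y % 8 = b) : (x * y) % 8 = (a * b) % 8 := by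
  rw [Int.mul_emod, hx, hy]

lemma c8_eq {v : ℤ} (hv : v % 2 = 1) :
    (ZMod.χ₈ (v : ZMod 8) : ℤ) = if v % 8 = 1 ∨ v % 8 = 7 then 1 else -1 := by
  have h : ((v : ℤ) : ZMod 8) = (((v % 8 : ℤ)) : ZMod 8) := by
    rw [ZMod.intCast_eq_intCast_iff']
    simp
  have h8 : v % 8 = 1 ∨ v % 8 = 3 ∨ v % 8 = 5 ∨ v % 8 = 7 := by omega
  rw [h]
  rcases h8 with h8 | h8 | h8 | h8 <;> rw [h8] <;> decide

theorem t_LO2 : S_LO2 := by
  intro _ d z hd hz h
  have hz0 : z ≠ 0 := by
    rintro rfl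
    exact hz (dvd_zero _)
  have hA : z % 8 = 1 → LocI ℚ_[2] (aD d) (bD d) z := by
    intro h1
    refine lo_one hz0 (padic_sq2 ?_)
    have e1 : (z * (z + 256 * d) * (z + 4096 * d)) % 8 = (1 * 1) % 8 :=
      lo_mul (by
        have := lo_mul (x := z) (y := z + 256 * d) h1 (b := 1) (by omega)
        omega) (by omega)
    omega
  by_cases zo : z % 2 = 1
  · by_cases dO : d % 2 = 1
    · have hd3 : d % 4 = 3 := by omega
      have hz4 : z % 4 = 1 := by
        by_contra hc
        have hz3 : z % 4 = 3 := by omega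
        unfold h2 at h
        have n1 : ¬ (2 : ℤ) ∣ z := by omega
        have n2 : ¬ (2 : ℤ) ∣ d := by omega
        simp [n1, n2, hz3, hd3] at h
      by_cases h1 : z % 8 = 1
      · exact hA h1
      have h5 : z % 8 = 5 := by omega
      refine lo_X (X := z) (c := z * (z + 4 * d) * (z + 64 * d)) (f := 1) (e := 1) hz0 hz0
        (padic_sq2 ?_) (by ring) (by simp) z (by ring)
      have e1 : (z * (z + 4 * d) * (z + 64 * d)) % 8 = (5 * 5) % 8 :=
        lo_mul (by
          have := lo_mul (x := z) (y := z + 4 * d) h5 (b := 1) (by omega)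
          omega) (by omega)
      omega
    · -- `d = 2 v`
      obtain ⟨v, rfl⟩ : (2 : ℤ) ∣ d := by omega
      have n1 : ¬ (2 : ℤ) ∣ z := by omega
      have n2 : (2 : ℤ) ∣ 2 * v := dvd_mul_right _ _
      have n3 : (2 * v) / 2 = v := by omega
      have hv : v % 2 = 1 := by omega
      unfold h2 at h
      simp only [n1, n2, n3, if_true, if_false, mul_one] at h
      rw [c8_eq zo] at h
      by_cases h1 : z % 8 = 1
      · exact hA h1
      have key : (z % 8 = 7 ∧ v % 4 = 1) ∨ (z % 8 = 3 ∧ v % 4 = 3) := by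
        by_contra hc
        have hz8 : z % 8 = 3 ∨ z % 8 = 5 ∨ z % 8 = 7 := by omega
        have hv4 : v % 4 = 1 ∨ v % 4 = 3 := by omega
        have hz4 : z % 4 = (z % 8) % 4 := by omega
        rcases hz8 with h3 | h3 | h3 <;> rcases hv4 with h4 | h4 <;>
          simp [hz4, h3, h4] at h hc
      have h2' : ∀ a : ℤ, z % 8 = a → (z * (z + 2 * v) * (z + 32 * v)) % 8 =
          (((a * ((a + 2 * v) % 8)) % 8) * a) % 8 := by
        intro a ha
        refine lo_mul (lo_mul ha ?_) ?_ <;> omega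
      refine lo_X (X := 4 * z) (c := z * (z + 2 * v) * (z + 32 * v)) (f := 8) (e := 1) (by omega) hz0
        (padic_sq2 ?_) (by ring) (by simp) (2 * z) (by ring)
      rcases key with ⟨k1, k2⟩ | ⟨k1, k2⟩ <;> rw [h2' _ k1] <;> omega
  · obtain ⟨u, rfl⟩ : (2 : ℤ) ∣ z := by omega
    have hu : u % 2 = 1 := by omega
    have m2 : (2 : ℤ) ∣ 2 * u := dvd_mul_right _ _
    have m3 : (2 * u) / 2 = u := by omega
    by_cases dO : d % 2 = 1
    · have hd3 : d % 4 = 3 := by omega
      have n2 : ¬ (2 : ℤ) ∣ d := by omega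
      unfold h2 at h
      simp only [m2, m3, n2, if_true, if_false, mul_one] at h
      rw [c8_eq dO] at h
      have key : (d % 8 = 3 ∧ u % 4 = 3) ∨ (d % 8 = 7 ∧ u % 4 = 1) := by
        by_contra hc
        have hd8 : d % 8 = 3 ∨ d % 8 = 7 := by omega
        have hu4 : u % 4 = 1 ∨ u % 4 = 3 := by omega
        have hd4 : d % 4 = (d % 8) % 4 := by omega
        rcases hd8 with h3 | h3 <;> rcases hu4 with h4 | h4 <;>
          simp [hd4, h3, h4] at h hc
      refine lo_X (X := 8 * u) (c := u * (2 * u + d) * (u + 8 * d)) (f := 16) (e := 1) (by omega)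
        (by omega) (padic_sq2 ?_) (by ring) (by simp) (4 * u) (by ring)
      have h8 : u % 8 = 1 ∨ u % 8 = 3 ∨ u % 8 = 5 ∨ u % 8 = 7 := by omega
      have h2' : ∀ a : ℤ, u % 8 = a → (u * (2 * u + d) * (u + 8 * d)) % 8 =
          (((a * ((2 * a + d) % 8)) % 8) * a) % 8 := by
        intro a ha
        refine lo_mul (lo_mul ha ?_) ?_ <;> omega
      rcases h8 with h8 | h8 | h8 | h8 <;> rw [h2' _ h8] <;> omega
    · obtain ⟨v, rfl⟩ : (2 : ℤ) ∣ d := by omega
      have n2 : (2 : ℤ) ∣ 2 * v := dvd_mul_right _ _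
      have n3 : (2 * v) / 2 = v := by omega
      have hv : v % 2 = 1 := by omega
      unfold h2 at h
      simp only [m2, m3, n2, n3, if_true] at h
      rw [c8_eq hu, c8_eq hv] at h
      have hu8 : u % 8 = 1 ∨ u % 8 = 3 ∨ u % 8 = 5 ∨ u % 8 = 7 := by omega
      have hv8 : v % 8 = 1 ∨ v % 8 = 3 ∨ v % 8 = 5 ∨ v % 8 = 7 := by omega
      have hu4 : u % 4 = (u % 8) % 4 := by omega
      have hv4 : v % 4 = (v % 8) % 4 := by omega
      by_cases hc1 : (-u * v) % 8 = 1
      · refine lo_t (t := 512) (k := 7680) (by omega) (by omega) (by omega) (by omega) (by norm_num)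
          (padic_sq2 ?_)
        have e1 : (-u * v * (u - 16 * 512) * (u - 512)) % 8 = (((1 * (u % 8)) % 8) * (u % 8)) % 8 := by
          refine lo_mul (lo_mul hc1 ?_) ?_ <;> omega
        rw [e1]
        rcases hu8 with h3 | h3 | h3 | h3 <;> rw [h3] <;> norm_num
      · refine lo_t (t := 2) (k := 480) (by omega) (by omega) (by omega) (by omega) (by norm_num)
          (padic_sq2 ?_)
        have e1 : (-u * v * (u - 16 * 2) * (u - 2)) % 8 =
            (((((((-u) % 8) * (v % 8)) % 8) * (u % 8)) % 8) * ((u % 8 - 2) % 8)) % 8 := by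
          refine lo_mul (lo_mul (lo_mul rfl rfl) ?_) ?_ <;> omega
        have hn : (-u) % 8 = (8 - u % 8) % 8 := by omega
        have hc2 : (((-u) % 8) * (v % 8)) % 8 ≠ 1 := by
          rw [← Int.mul_emod]
          exact hc1
        rw [e1]
        rcases hu8 with h3 | h3 | h3 | h3 <;> rcases hv8 with h4 | h4 | h4 | h4 <;>
          simp [hn, hu4, hv4, h3, h4] at h hc2 ⊢

end Pool.Agent.XW.T
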