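import Pool.Agent.XW.T.Stm
import Pool.Agent.XV.T.LOC

/-!
# Project XW, part XW-18-7: local solubility away from `2` (port of XV/T/LOC.lean, by helper47)
-/

set_option autoImplicit false

namespace Pool.Agent.XW.T

open Finset Pool.Agent.XV.T.LOCH
open Pool.Agent.Z702 (LocI padic_sq)
open Pool.Agent.XV.T (aD bD)

namespace LOOH

lemma not_dvd_prod {N : Finset ℕ} (hN : ∀ p ∈ N, p.Prime) {p : ℕ} (hp : p.Prime) (hpN : p ∉ N) :
    ¬ (p : ℤ) ∣ ∏ l ∈ N, (l : ℤ) := by
  intro h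
  obtain ⟨r, hr, hpr⟩ := (Prime.dvd_finsetProd_iff (Nat.prime_iff_prime_int.1 hp) _).1 h
  have h1 : p ∣ r := Int.natCast_dvd_natCast.1 hpr
  have := (Nat.prime_dvd_prime_iff_eq hp (hN r hr)).mp h1
  exact hpN (this ▸ hr)

lemma not_dvd_prodN {N : Finset ℕ} (hN : ∀ p ∈ N, p.Prime) {p : ℕ} (hp : p.Prime) (hpN : p ∉ N) :
    ¬ p ∣ ∏ l ∈ N, l := by
  intro h
  obtain ⟨r, hr, hpr⟩ := (Prime.dvd_finsetProd_iff (Nat.prime_iff.1 hp) _).1 h
  have := (Nat.prime_dvd_prime_iff_eq hp (hN r hr)).mp hpr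
  exact hpN (this ▸ hr)

theorem pe_eq {δ : ℤ} {N : Finset ℕ} (h2 : 2 ∈ N) :
    pe δ N = δ.natAbs * ∏ p ∈ N.erase 2, p := by
  unfold pe
  rw [← mul_prod_erase _ _ h2]
  congr 1
  refine prod_congr rfl fun p hp => ?_
  unfold md
  rw [if_neg (ne_of_mem_erase hp)]

theorem natAbs_dt {δ : ℤ} (h : Dt δ) : δ.natAbs = 4 ∨ δ.natAbs = 8 := by
  rcases h with rfl | rfl | rfl
  · exact Or.inl rfl
  · exact Or.inr rfl
  · exact Or.inr rfl

/-- an odd prime not in `N` does not divide the discriminant -/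
theorem not_dvd_pe {δ : ℤ} (hδ : Dt δ) {N : Finset ℕ} (hN : ∀ p ∈ N, p.Prime) (h2 : 2 ∈ N) {p : ℕ}
    (hp : p.Prime) (hp2 : p ≠ 2) (hpN : p ∉ N.erase 2) : ¬ p ∣ pe δ N := by
  rw [pe_eq h2]
  intro h
  rcases hp.dvd_mul.1 h with h1 | h1
  · rcases natAbs_dt hδ with h3 | h3 <;> rw [h3] at h1
    · have h4 : p ∣ 2 ^ 2 := h1
      exact hp2 ((Nat.prime_dvd_prime_iff_eq hp Nat.prime_two).1 (hp.dvd_of_dvd_pow h4))
    · have h4 : p ∣ 2 ^ 3 := h1
      exact hp2 ((Nat.prime_dvd_prime_iff_eq hp Nat.prime_two).1 (hp.dvd_of_dvd_pow h4))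
  · exact not_dvd_prodN (fun q hq => hN q (mem_of_mem_erase hq)) hp hpN h1

end LOOH

open LOOH

theorem t_LOO : S_LOO := by
  classical
  intro δ N d hEv D0 hD0 hg
  obtain ⟨hδ, hN, h2N, hb, hd⟩ := hEv
  have hNp : ∀ p ∈ N, p.Prime := fun p hp => (hN p hp).1
  obtain ⟨z, hz⟩ : ∃ z : ℤ, z = ∏ l ∈ D0, (l : ℤ) := ⟨_, rfl⟩
  rw [← hz]
  have hz0 : 0 < z := by
    rw [hz]
    exact prod_pos fun p hp => by exact_mod_cast (hNp p (hD0 hp)).pos
  have hzz : z ≠ 0 := hz0.ne'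
  have hpe0 : (pe δ N : ℤ) ≠ 0 := by
    rw [pe_eq h2N]
    push_cast
    refine mul_ne_zero ?_ (prod_ne_zero_iff.2 fun p hp => ?_)
    · have h4 : ((δ.natAbs : ℕ) : ℤ) ≠ 0 := by
        rcases natAbs_dt hδ with h3 | h3 <;> rw [h3] <;> norm_num
      first | exact h4 | (simpa using h4)
    · exact_mod_cast (hNp p (mem_of_mem_erase hp)).ne_zero
  have hdz : d ≠ 0 := by
    rintro rfl
    apply hpe0
    linarith
  have hb0 : bD d ≠ 0 := by unfold bD; positivity
  have hc0 : aD d ^ 2 - 4 * bD d ≠ 0 := by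
    have : aD d ^ 2 - 4 * bD d = 256 * d ^ 2 := by unfold aD bD; ring
    rw [this]
    positivity
  obtain ⟨hq, hqR⟩ := Pool.Agent.Z864.LQ.t_LQ (aD d) (bD d) z hb0 hc0 hzz
  refine ⟨fun p hp p2 => ?_, hqR hz0⟩
  have hpn : ∀ l : ℕ, l ∉ N → l.Prime → ¬ (l : ℤ) ∣ z := fun l hl hlp => by
    rw [hz]
    exact not_dvd_prod (fun q hq => hNp q (hD0 hq)) hlp (fun h' => hl (hD0 h'))
  by_cases p3 : p = 3
  · subst p3
    have h3N : 3 ∉ N := fun h' => (hN 3 h').2.1 rfl
    have hd3 := hpn 3 h3N Nat.prime_three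
    have hd3' : ¬ (3 : ℤ) ∣ z := by exact_mod_cast hd3
    have h5 : (pe δ N : ℤ) % 3 = 2 := by exact_mod_cast hb.2.1
    have hD3 : d % 3 = 1 := by omega
    have hd : z % 3 = 1 ∨ z % 3 = 2 := by omega
    rcases hd with hd | hd
    · refine hq 3 (Or.inl (padic_sq (by norm_num) hd3 ?_))
      have e : (z : ZMod 3) = ((1 : ℤ) : ZMod 3) := by
        rw [ZMod.intCast_eq_intCast_iff']
        exact_mod_cast hd
      rw [e]
      exact ⟨1, by norm_num⟩
    · have h1 : (-d * z) % 3 = 1 := by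
        rw [Int.mul_emod, hd]
        have : (-d) % 3 = 2 := by omega
        rw [this]
        norm_num
      refine loc_D hdz hzz (padic_sq (by norm_num) ?_ ?_)
      · intro h2
        have h2' : (3 : ℤ) ∣ -d * z := by exact_mod_cast h2
        omega
      · have e : (((-d * z : ℤ)) : ZMod 3) = ((1 : ℤ) : ZMod 3) := by
          rw [ZMod.intCast_eq_intCast_iff']
          exact_mod_cast h1
        rw [e]
        exact ⟨1, by norm_num⟩
  by_cases p5 : p = 5
  · subst p5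
    have h5N : 5 ∉ N := fun h' => (hN 5 h').2.2 rfl
    have hd5 := hpn 5 h5N (by norm_num)
    have hd5' : ¬ (5 : ℤ) ∣ z := by exact_mod_cast hd5
    have h5 : (pe δ N : ℤ) % 5 = 2 ∨ (pe δ N : ℤ) % 5 = 3 := by exact_mod_cast hb.2.2
    have hD5 : (-d) % 5 = 2 ∨ (-d) % 5 = 3 := by omega
    have sq5 : ∀ n : ℤ, n % 5 = 1 ∨ n % 5 = 4 → IsSquare (n : ZMod 5) := by
      intro n hn
      rcases hn with hn | hn
      · have e : (n : ZMod 5) = ((1 : ℤ) : ZMod 5) := by
          rw [ZMod.intCast_eq_intCast_iff']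
          exact_mod_cast hn
        rw [e]
        exact ⟨1, by norm_num⟩
      · have e : (n : ZMod 5) = ((4 : ℤ) : ZMod 5) := by
          rw [ZMod.intCast_eq_intCast_iff']
          exact_mod_cast hn
        rw [e]
        exact ⟨2, by norm_num⟩
    have hd : (z % 5 = 1 ∨ z % 5 = 4) ∨ (z % 5 = 2 ∨ z % 5 = 3) := by omega
    rcases hd with hd | hd
    · exact hq 5 (Or.inl (padic_sq (by norm_num) hd5 (sq5 _ hd)))
    · have h1 : (-d * z) % 5 = 1 ∨ (-d * z) % 5 = 4 := by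
        rcases hD5 with h1 | h1 <;> rcases hd with h2 | h2 <;> rw [Int.mul_emod, h1, h2] <;>
          norm_num
      refine loc_D hdz hzz (padic_sq (by norm_num) ?_ (sq5 _ h1))
      intro h2
      have h2' : (5 : ℤ) ∣ -d * z := by exact_mod_cast h2
      omega
  by_cases pN : p ∈ N
  · have pN' : p ∈ N.erase 2 := mem_erase.2 ⟨p2, pN⟩
    by_cases pD : p ∈ D0
    · have h1 := hg p pN'
      unfold gen at h1
      rw [if_pos pD] at h1
      -- the two quotients
      have hzN : (∏ l ∈ D0, l) / p = ∏ l ∈ D0.erase p, l := by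
        rw [← mul_prod_erase _ _ pD]
        exact Nat.mul_div_cancel_left _ hp.out.pos
      have hpeN : pe δ N / p = δ.natAbs * ∏ l ∈ (N.erase 2).erase p, l := by
        rw [pe_eq h2N, ← mul_prod_erase _ _ pN', mul_left_comm]
        exact Nat.mul_div_cancel_left _ hp.out.pos
      have h2 : ¬ (p : ℤ) ∣ (((∏ l ∈ D0, l) / p * (pe δ N / p) : ℕ) : ℤ) := by
        intro h3
        have h4 := Int.natCast_dvd_natCast.1 h3
        rw [hzN, hpeN] at h4
        rcases hp.out.dvd_mul.1 h4 with h5 | h5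
        · exact not_dvd_prodN (fun q hq => hNp q (hD0 (mem_of_mem_erase hq))) hp.out
            (notMem_erase p D0) h5
        · rcases hp.out.dvd_mul.1 h5 with h6 | h6
          · rcases natAbs_dt hδ with h7 | h7 <;> rw [h7] at h6
            · have h8 : p ∣ 2 ^ 2 := h6
              exact p2 ((Nat.prime_dvd_prime_iff_eq hp.out Nat.prime_two).1
                (hp.out.dvd_of_dvd_pow h8))
            · have h8 : p ∣ 2 ^ 3 := h6
              exact p2 ((Nat.prime_dvd_prime_iff_eq hp.out Nat.prime_two).1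
                (hp.out.dvd_of_dvd_pow h8))
          · exact not_dvd_prodN (fun q hq => hNp q (mem_of_mem_erase (mem_of_mem_erase hq))) hp.out
              (notMem_erase p _) h6
      obtain ⟨s, hs⟩ := padic_sq p2 h2 (sq_of_jacobi h1)
      refine loc_D hdz hzz ⟨(p : ℚ_[p]) / 2 * s, ?_⟩
      have e1 : (z : ℤ) = p * (((∏ l ∈ D0, l) / p : ℕ) : ℤ) := by
        rw [hz, hzN, ← mul_prod_erase _ _ pD]
        push_cast
        rfl
      have e2 : (pe δ N : ℤ) = p * ((pe δ N / p : ℕ) : ℤ) := by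
        have h3 : p ∣ pe δ N := by
          rw [pe_eq h2N, ← mul_prod_erase _ _ pN', mul_left_comm]
          exact Dvd.intro _ rfl
        exact_mod_cast (Nat.mul_div_cancel' h3).symm
      have e3 : 4 * (-d * z) = (p : ℤ) ^ 2 * (((∏ l ∈ D0, l) / p * (pe δ N / p) : ℕ) : ℤ) := by
        have h3 : -(4 * d) = p * ((pe δ N / p : ℕ) : ℤ) := by rw [hd, neg_neg]; exact e2
        have h4 : 4 * (-d * z) = -(4 * d) * z := by ring
        rw [h4, h3, e1]
        push_cast
        ring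
      have e4 := congrArg (Int.cast : ℤ → ℚ_[p]) e3
      rw [Int.cast_mul, Int.cast_mul (α := ℚ_[p]) ((p : ℤ) ^ 2), hs] at e4
      push_cast at e4 ⊢
      linear_combination e4 / 4
    · have h1 := hg p pN'
      unfold gen at h1
      rw [if_neg pD] at h1
      have h2 : ¬ (p : ℤ) ∣ z := by
        rw [hz]
        exact not_dvd_prod (fun q hq => hNp q (hD0 hq)) hp.out pD
      have h3 : ((∏ l ∈ D0, l : ℕ) : ℤ) = z := by
        rw [hz]
        push_cast
        rfl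
      rw [h3] at h1
      exact hq p (Or.inl (padic_sq p2 h2 (sq_of_jacobi h1)))
  · refine Pool.Agent.XV.T.t_LGF p d z p2 p3 p5 ?_ (hpn p pN hp.out)
    intro h1
    have h2 : (p : ℤ) ∣ (pe δ N : ℤ) := by
      have h3 : (p : ℤ) ∣ -(4 * d) := (h1.mul_left 4).neg_right
      rwa [hd, neg_neg] at h3
    exact not_dvd_pe hδ hNp h2N hp.out p2 (fun h3 => pN (mem_of_mem_erase h3))
      (Int.natCast_dvd_natCast.1 h2)

end Pool.Agent.XW.T
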