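import Pool.Agent.XW.T.Dsc
import Pool.Agent.XW.MT.All
import Pool.Agent.XV.T.Out
import Pool.Agent.XV.T.Inc
import Pool.Agent.XR.All

/-!
# Project XW: the final statement for the even discriminants

`D < 0` squarefree, `D = 2, 3 mod 4`, `D = 1 mod 3`, `D = 2, 3 mod 5`.
-/

set_option autoImplicit false

namespace Pool.Agent.XW.T

open Finset WeierstrassCurve
open Pool.Agent.Z702 (WZ LocI sh)
open Pool.Agent.TH841.SH.D (Sha)
open Pool.Agent.XV.T (aD bD NoS ps RZ)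
open Pool.Agent.XV (SyM vec)
open Pool.Agent.Y687 (RankBSD rankBSD)

/-- the class group -/
theorem kr_noFour {δ : ℤ} {N : Finset ℕ} {d : ℤ} (h : Ev δ N d) : Kr δ N ↔ XR.NoFour d := by
  obtain ⟨hδ, hN, h2, ⟨hsg, hb3, -⟩, he⟩ := h
  have key := XR.f_XR3b δ hδ N (fun p hp => (hN p hp).1) h2 hsg (by
    rintro ⟨h5, h6⟩
    have h7 : pe δ N = 4 := by
      rw [h6, h5]
      decide
    rw [h7] at hb3
    omega)
  have e : (-((pe δ N / 4 : ℕ) : ℤ)) = d := by omega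
  rw [e] at key
  exact key

/-- non-vanishing -/
theorem lfun_of (hM : S_MAIN) (hV : S_V5) (hE : S_E56) {δ : ℤ} {N : Finset ℕ} {D : ℤ}
    (h : Ev δ N D) (hk : Kr δ N) :
    ∃ f : ℂ → ℂ, Differentiable ℂ f ∧
      (∀ s : ℂ, (3 : ℝ) / 2 < s.re →
        HasProd (fun p : {p : ℕ // p.Prime ∧
            ¬ ((p : ℤ) ∣ 2 * (4 * (-12987 * D ^ 2) ^ 3 + 27 * (-263466 * D ^ 3) ^ 2))} =>
          Pool.Agent.XV.MT.fac (-12987 * D ^ 2) (-263466 * D ^ 3) s p) (f s)) ∧ f 1 ≠ 0 := by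
  obtain ⟨hδ, hN, h2, hb, he⟩ := h
  have hβ : (3 : ℤ) ∣ 1 ^ 2 + (pe δ N : ℤ) := by
    obtain ⟨-, hb3, -⟩ := hb
    omega
  obtain ⟨T, z, hT, hS⟩ := (hM δ hδ N hN).1 hb 1 hβ
  obtain ⟨T', hT', hodd⟩ := hV δ hδ N hN hb
  have hTT : T = T' := by
    have h3 : (2 : ℤ) ^ N.card * T = 2 ^ N.card * T' := by rw [← hT, ← hT']
    exact mul_left_cancel₀ (pow_ne_zero _ two_ne_zero) h3
  have hTo : Odd T := by
    rw [hTT]
    exact hodd.2 hk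
  have hS0 : S5 δ N ∅ 1 ≠ 0 := by
    rw [hS]
    refine mul_ne_zero (pow_ne_zero _ two_ne_zero) ?_
    intro h3
    rw [Int.odd_iff] at hTo
    omega
  obtain ⟨t, sp, sm, Op, Om, hOp, hOm, -, hper, -, -, hsm, hsm4⟩ := Pool.Agent.XV.MT.t_G1
  have hEE := (hE sm _ hsm δ hδ N hN).1 hb 1 hβ
  have hSS : SS sm δ N ≠ 0 := by
    intro h3
    rw [h3, mul_zero] at hEE
    exact mul_ne_zero (pow_ne_zero 2 hS0) hsm4 hEE
  refine MT.t_G2e δ hδ N hN h2 D ?_ sp sm Op Om hOp hOm hper (Or.inr hSS)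
  rw [hb.1, he]
  ring

/-- **the final statement** -/
def S_OUTE : Prop := ∀ δ N D, Ev δ N D → (RZ D ↔ Kr δ N) ∧ (Kr δ N ↔ XR.NoFour D) ∧
  (RZ D → RankBSD (-12987 * D ^ 2) (-263466 * D ^ 3))

theorem finite_set {a b : ℤ} (h4 : 4 * a ^ 3 + 27 * b ^ 2 ≠ 0) (h : Finite (sh a b).toAffine.Point) :
    {q : ℚ × ℚ | q.2 ^ 2 = q.1 ^ 3 + (a : ℚ) * q.1 + (b : ℚ)}.Finite :=
  Pool.Agent.XV.T.INC.finite_pts h4 h

theorem outE_of (hM : S_MAIN) (hV : S_V5) (hE : S_E56) (hDsc : S_DSC) : S_OUTE := by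
  intro δ N D hev
  have hD0 : D ≠ 0 := by
    obtain ⟨-, -, -, ⟨-, hb3, -⟩, he⟩ := hev
    omega
  obtain ⟨t1, t2⟩ := t_TRV D hD0
  have hrz : RZ D ↔ NoS D := and_congr t1.symm t2.symm
  have hkr : RZ D ↔ Kr δ N := hrz.trans (hDsc _ _ _ hev).symm
  refine ⟨hkr, kr_noFour hev, fun h => ?_⟩
  obtain ⟨f, f1, f2, f3⟩ := lfun_of hM hV hE hev (hkr.1 h)
  exact rankBSD f1 f2 f3 (finite_set (Pool.Agent.XV.T.INC.disc_ne hD0) h.1)

end Pool.Agent.XW.T
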