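import Pool.Agent.XW.T.Stm

/-! XW-18-5: reciprocity at `2`. -/

set_option autoImplicit false

namespace Pool.Agent.XW.T.REC

open Finset

/-- the Jacobi symbol of a product of primes -/
theorem J_prod (c : ℤ) (s : Finset ℕ) (h0 : ∀ p ∈ s, p ≠ 0) (h : ∀ p ∈ s, jacobiSym c p = 1) :
    jacobiSym c (∏ p ∈ s, p) = 1 := by
  classical
  induction s using Finset.induction_on with
  | empty => simp
  | insert q s hq ih =>
    rw [Finset.prod_insert hq]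
    have h1 : q ≠ 0 := h0 q (Finset.mem_insert_self _ _)
    have h2 : ∏ p ∈ s, p ≠ 0 := Finset.prod_ne_zero_iff.2 fun p hp => h0 p (Finset.mem_insert_of_mem hp)
    have : NeZero q := ⟨h1⟩
    have : NeZero (∏ p ∈ s, p) := ⟨h2⟩
    rw [jacobiSym.mul_right, h q (Finset.mem_insert_self _ _),
      ih (fun p hp => h0 p (Finset.mem_insert_of_mem hp)) fun p hp => h p (Finset.mem_insert_of_mem hp),
      one_mul]

theorem chi_sq {g : ℕ} (hg : Odd g) : ZMod.χ₈ (g : ZMod 8) * ZMod.χ₈ (g : ZMod 8) = 1 := by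
  rw [← jacobiSym.at_two hg]
  have h1 : Int.gcd 2 g = 1 := by
    have := Nat.coprime_two_left.2 hg
    simpa [Int.gcd] using this
  have := jacobiSym.sq_one h1
  rwa [sq] at this

theorem chi_neg_mul (g m : ℕ) : ZMod.χ₈ (((-((g : ℤ) * m) : ℤ)) : ZMod 8) =
    ZMod.χ₈ (g : ZMod 8) * ZMod.χ₈ (m : ZMod 8) := by
  push_cast
  rw [← map_mul]
  have h : ∀ x : ZMod 8, ZMod.χ₈ (-x) = ZMod.χ₈ x := by decide
  rw [h]

theorem eps {g m : ℕ} (hg : Odd g) (hm : Odd m) :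
    (if (g : ℤ) % 4 = 3 ∧ (-((g : ℤ) * m)) % 4 = 3 then (-1 : ℤ) else 1) =
      (-1) ^ (g / 2 * (m / 2)) := by
  have h1 : g % 4 = 1 ∨ g % 4 = 3 := by
    obtain ⟨k, rfl⟩ := hg; omega
  have h2 : m % 4 = 1 ∨ m % 4 = 3 := by
    obtain ⟨k, rfl⟩ := hm; omega
  have e : (-((g : ℤ) * m)) % 4 = (-(((g % 4 : ℕ) : ℤ) * ((m % 4 : ℕ) : ℤ))) % 4 := by
    push_cast
    rw [Int.neg_emod_eq_sub_emod, Int.neg_emod_eq_sub_emod, Int.sub_emod, Int.mul_emod]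
    conv_rhs => rw [Int.sub_emod]
  have e2 : (g : ℤ) % 4 = ((g % 4 : ℕ) : ℤ) := by push_cast; rfl
  rw [e, e2]
  rcases h1 with h1 | h1 <;> rcases h2 with h2 | h2
  · rw [h1, h2]
    have : Even (g / 2) := ⟨g / 4, by omega⟩
    rw [(this.mul_right _).neg_one_pow]; norm_num
  · rw [h1, h2]
    have : Even (g / 2) := ⟨g / 4, by omega⟩
    rw [(this.mul_right _).neg_one_pow]; norm_num
  · rw [h1, h2]
    have : Even (m / 2) := ⟨m / 4, by omega⟩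
    rw [(this.mul_left _).neg_one_pow]; norm_num
  · rw [h1, h2]
    have h3 : Odd (g / 2) := ⟨g / 4, by omega⟩
    have h4 : Odd (m / 2) := ⟨m / 4, by omega⟩
    rw [(h3.mul h4).neg_one_pow]; norm_num

/-- the reciprocity law -/
theorem recip {g m : ℕ} (hg : Odd g) (hm : Odd m) (α β : ℕ)
    (h1 : jacobiSym ((2 ^ α * g : ℕ) : ℤ) m = 1) (h2 : jacobiSym ((2 ^ (α + β) * m : ℕ) : ℤ) g = 1) :
    ((-1) ^ (g / 2 * (m / 2)) * (ZMod.χ₈ (g : ZMod 8) * ZMod.χ₈ (m : ZMod 8)) ^ α *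
      ZMod.χ₈ (g : ZMod 8) ^ β : ℤ) = 1 := by
  push_cast at h1 h2
  rw [jacobiSym.mul_left, jacobiSym.pow_left, jacobiSym.at_two hm] at h1
  rw [jacobiSym.mul_left, jacobiSym.pow_left, jacobiSym.at_two hg] at h2
  have hqr := jacobiSym.quadratic_reciprocity hg hm
  have hne : jacobiSym (m : ℤ) g ≠ 0 := by
    intro h0
    rw [h0, mul_zero] at h2
    exact zero_ne_one h2
  have hJ : jacobiSym (m : ℤ) g * jacobiSym (m : ℤ) g = 1 := by
    rcases jacobiSym.trichotomy (m : ℤ) g with h | h | h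
    · exact absurd h hne
    · rw [h]; norm_num
    · rw [h]; norm_num
  rw [hqr] at h1
  have h3 := congrArg₂ (· * ·) h1 h2
  simp only [mul_one] at h3
  have : (ZMod.χ₈ (m : ZMod 8) : ℤ) ^ α * ((-1) ^ (g / 2 * (m / 2)) * jacobiSym (m : ℤ) g) *
      (ZMod.χ₈ (g : ZMod 8) ^ (α + β) * jacobiSym (m : ℤ) g) =
      (-1) ^ (g / 2 * (m / 2)) * (ZMod.χ₈ (g : ZMod 8) * ZMod.χ₈ (m : ZMod 8)) ^ α *
      ZMod.χ₈ (g : ZMod 8) ^ β * (jacobiSym (m : ℤ) g * jacobiSym (m : ℤ) g) := by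
    rw [pow_add, mul_pow]; ring
  rw [hJ, mul_one] at this
  rw [← this]
  exact h3

end Pool.Agent.XW.T.REC


namespace Pool.Agent.XW.T.REC
open Finset

theorem main_even (h2f : ℤ → ℤ → ℤ) (hdef : ∀ a b : ℤ, h2f a b =
    (if (if 2 ∣ a then a / 2 else a) % 4 = 3 ∧ (if 2 ∣ b then b / 2 else b) % 4 = 3 then (-1 : ℤ) else 1) *
    (if 2 ∣ a then ZMod.χ₈ ((if 2 ∣ b then b / 2 else b : ℤ) : ZMod 8) else 1) *
    (if 2 ∣ b then ZMod.χ₈ ((if 2 ∣ a then a / 2 else a : ℤ) : ZMod 8) else 1))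
    {g m : ℕ} (hg : Odd g) (hm : Odd m) (α β : ℕ) (hα : α ≤ 1) (hβ : β ≤ 1)
    (h1 : jacobiSym ((2 ^ α * g : ℕ) : ℤ) m = 1) (h2 : jacobiSym ((2 ^ (α + β) * m : ℕ) : ℤ) g = 1) :
    h2f (2 ^ α * g) (-(2 ^ β * (g * m))) = 1 := by
  have hr := recip hg hm α β h1 h2
  rw [hdef]
  have hgz : ¬ (2 : ℤ) ∣ (g : ℤ) := by
    intro h; obtain ⟨k, hk⟩ := hg; omega
  have hgm : ¬ (2 : ℤ) ∣ -((g : ℤ) * m) := by
    intro h
    rw [dvd_neg] at h
    have h3 := (hg.mul hm)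
    have h4 : (2 : ℕ) ∣ g * m := by exact_mod_cast h
    obtain ⟨k, hk⟩ := h3
    omega
  have e1 : (if (2 : ℤ) ∣ 2 ^ α * (g : ℤ) then (2 ^ α * (g : ℤ)) / 2 else 2 ^ α * (g : ℤ)) = g := by
    interval_cases α
    · rw [pow_zero, one_mul, if_neg hgz]
    · rw [pow_one, if_pos (Dvd.intro _ rfl)]
      omega
  have e2 : (if (2 : ℤ) ∣ -(2 ^ β * ((g : ℤ) * m)) then (-(2 ^ β * ((g : ℤ) * m))) / 2
      else -(2 ^ β * ((g : ℤ) * m))) = -((g : ℤ) * m) := by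
    interval_cases β
    · rw [pow_zero, one_mul, if_neg hgm]
    · rw [pow_one, if_pos (by rw [dvd_neg]; exact Dvd.intro _ rfl)]
      generalize (g : ℤ) * m = t
      omega
  rw [e1, e2, eps hg hm, chi_neg_mul]
  have e3 : (if (2 : ℤ) ∣ 2 ^ α * (g : ℤ) then ZMod.χ₈ (g : ZMod 8) * ZMod.χ₈ (m : ZMod 8) else 1) =
      (ZMod.χ₈ (g : ZMod 8) * ZMod.χ₈ (m : ZMod 8)) ^ α := by
    interval_cases α
    · rw [pow_zero, one_mul, if_neg hgz, pow_zero]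
    · rw [pow_one, if_pos (Dvd.intro _ rfl), pow_one]
  have e4 : (if (2 : ℤ) ∣ -(2 ^ β * ((g : ℤ) * m)) then ZMod.χ₈ (((g : ℤ)) : ZMod 8) else 1) =
      ZMod.χ₈ (g : ZMod 8) ^ β := by
    interval_cases β
    · rw [pow_zero, one_mul, if_neg hgm, pow_zero]
    · rw [pow_one, if_pos (by rw [dvd_neg]; exact Dvd.intro _ rfl), pow_one]
      simp
  rw [e3, e4]
  exact hr

end Pool.Agent.XW.T.REC

namespace Pool.Agent.XW.T.REC

open Finset

theorem J_sq {c : ℤ} {t : ℕ} {p : ℕ} (h : Int.gcd (t : ℤ) p = 1) :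
    jacobiSym ((t : ℤ) * t * c) p = jacobiSym c p := by
  rw [jacobiSym.mul_left, jacobiSym.mul_left, ← sq, jacobiSym.sq_one h, one_mul]

end Pool.Agent.XW.T.REC

namespace Pool.Agent.XW.T

open Finset

theorem t_REC : S_REC := by
  classical
  intro δ N d hE D0 hD0 hgen
  obtain ⟨hδ, hPe, h2N, -, hd⟩ := hE
  obtain ⟨β, hβ1, hβ⟩ : ∃ β : ℕ, β ≤ 1 ∧ δ.natAbs = 4 * 2 ^ β := by
    rcases hδ with h | h | h
    · exact ⟨0, by norm_num, by rw [h]; rfl⟩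
    · exact ⟨1, by norm_num, by rw [h]; rfl⟩
    · exact ⟨1, by norm_num, by rw [h]; rfl⟩
  obtain ⟨D1, hD1⟩ : ∃ D1, D1 = D0.erase 2 := ⟨_, rfl⟩
  obtain ⟨M1, hM1⟩ : ∃ M1, M1 = (N.erase 2) \ D1 := ⟨_, rfl⟩
  obtain ⟨g, hg⟩ : ∃ g, g = ∏ l ∈ D1, l := ⟨_, rfl⟩
  obtain ⟨m, hm⟩ : ∃ m, m = ∏ l ∈ M1, l := ⟨_, rfl⟩
  have hsub : D1 ⊆ N.erase 2 := by rw [hD1]; exact Finset.erase_subset_erase 2 hD0
  have hpr : ∀ p ∈ N.erase 2, p.Prime ∧ p ≠ 2 := fun p hp =>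
    ⟨(hPe p (Finset.mem_of_mem_erase hp)).1, Finset.ne_of_mem_erase hp⟩
  have hprD : ∀ p ∈ D1, p.Prime ∧ p ≠ 2 := fun p hp => hpr p (hsub hp)
  have hprM : ∀ p ∈ M1, p.Prime ∧ p ≠ 2 := fun p hp => by
    rw [hM1] at hp; exact hpr p (Finset.mem_sdiff.1 hp).1
  have hgo : Odd g := by
    rw [hg, ← Nat.coprime_two_left]
    exact Nat.Coprime.prod_right fun p hp =>
      (Nat.coprime_primes Nat.prime_two (hprD p hp).1).2 (hprD p hp).2.symm
  have hmo : Odd m := by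
    rw [hm, ← Nat.coprime_two_left]
    exact Nat.Coprime.prod_right fun p hp =>
      (Nat.coprime_primes Nat.prime_two (hprM p hp).1).2 (hprM p hp).2.symm
  have hpe : pe δ N = 4 * 2 ^ β * (g * m) := by
    unfold pe
    rw [← Finset.mul_prod_erase N (md δ) h2N]
    have e1 : md δ 2 = 4 * 2 ^ β := by rw [md, if_pos rfl, hβ]
    have e2 : ∏ x ∈ N.erase 2, md δ x = ∏ x ∈ N.erase 2, x :=
      Finset.prod_congr rfl fun p hp => by rw [md, if_neg (hpr p hp).2]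
    rw [e1, e2, ← Finset.prod_sdiff hsub, hg, hm, hM1]
    ring
  obtain ⟨α, hα1, hz⟩ : ∃ α : ℕ, α ≤ 1 ∧ ∏ l ∈ D0, l = 2 ^ α * g := by
    by_cases h : 2 ∈ D0
    · refine ⟨1, le_rfl, ?_⟩
      rw [hg, hD1, pow_one]
      exact (Finset.mul_prod_erase D0 (fun l => l) h).symm
    · refine ⟨0, by norm_num, ?_⟩
      rw [hg, hD1, Finset.erase_eq_of_notMem h, pow_zero, one_mul]
  have h1 : jacobiSym ((2 ^ α * g : ℕ) : ℤ) m = 1 := by
    rw [hm]
    refine REC.J_prod _ _ (fun p hp => (hprM p hp).1.ne_zero) fun p hp => ?_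
    have hp' := hp
    rw [hM1, Finset.mem_sdiff] at hp'
    have h3 := hgen p hp'.1
    have h4 : p ∉ D0 := by
      intro h
      apply hp'.2
      rw [hD1]
      exact Finset.mem_erase.2 ⟨(hprM p hp).2, h⟩
    rw [gen, if_neg h4, hz] at h3
    exact h3
  have h2' : jacobiSym ((2 ^ (α + β) * m : ℕ) : ℤ) g = 1 := by
    rw [hg]
    refine REC.J_prod _ _ (fun p hp => (hprD p hp).1.ne_zero) fun p hp => ?_
    have h3 := hgen p (hsub hp)
    have h4 : p ∈ D0 := by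
      rw [hD1] at hp
      exact Finset.mem_of_mem_erase hp
    obtain ⟨g', hg'⟩ : ∃ g', g' = ∏ l ∈ D1.erase p, l := ⟨_, rfl⟩
    have e1 : g = p * g' := by
      rw [hg, hg']
      exact (Finset.mul_prod_erase D1 (fun l => l) hp).symm
    have hpp := (hprD p hp).1.pos
    have e2 : (∏ l ∈ D0, l) / p = 2 ^ α * g' := by
      rw [hz, e1]
      have : 2 ^ α * (p * g') = p * (2 ^ α * g') := by ring
      rw [this, Nat.mul_div_cancel_left _ hpp]
    have e3 : pe δ N / p = 4 * 2 ^ β * (g' * m) := by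
      rw [hpe, e1]
      have : 4 * 2 ^ β * (p * g' * m) = p * (4 * 2 ^ β * (g' * m)) := by ring
      rw [this, Nat.mul_div_cancel_left _ hpp]
    rw [gen, if_pos h4, e2, e3] at h3
    have e4 : ((2 ^ α * g' * (4 * 2 ^ β * (g' * m)) : ℕ) : ℤ) =
        ((2 * g' : ℕ) : ℤ) * ((2 * g' : ℕ) : ℤ) * ((2 ^ (α + β) * m : ℕ) : ℤ) := by
      push_cast
      rw [pow_add]
      ring
    rw [e4, REC.J_sq] at h3
    · exact h3
    · have h5 : Nat.Coprime (2 * g') p := by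
        refine Nat.Coprime.mul_left ?_ ?_
        · exact (Nat.coprime_primes Nat.prime_two (hprD p hp).1).2 (hprD p hp).2.symm
        · rw [hg']
          exact Nat.Coprime.prod_left fun q hq =>
            (Nat.coprime_primes (hprD q (Finset.mem_of_mem_erase hq)).1 (hprD p hp).1).2
              (Finset.ne_of_mem_erase hq)
      rw [Int.gcd_natCast_natCast]
      exact h5
  have hdd : d = -(2 ^ β * ((g : ℤ) * m)) := by
    rw [hpe] at hd
    push_cast at hd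
    linarith
  have hzz : (∏ l ∈ D0, (l : ℤ)) = 2 ^ α * (g : ℤ) := by
    have : (∏ l ∈ D0, (l : ℤ)) = ((∏ l ∈ D0, l : ℕ) : ℤ) := by push_cast; rfl
    rw [this, hz]
    push_cast
    rfl
  rw [hzz, hdd]
  exact REC.main_even h2 (fun a b => rfl) hgo hmo α β hα1 hβ1 h1 h2'

end Pool.Agent.XW.T
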