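import Pool.Agent.XW.T.Stm
import Pool.Agent.XV.T.S1

/-! # The Selmer group of the isogeny, classes of `x` on `y² = x (x - 9 d) (x - 25 d)`, even
discriminants -/

set_option autoImplicit false
set_option linter.style.haveILetI false

namespace Pool.Agent.XW.T.S1

open Finset
open Pool.Agent.Z700 (pr)
open Pool.Agent.Y700 (PC)
open Pool.Agent.XV.T (aD bD ps)

/-- the inclusion of the `2`-adic integers -/
noncomputable def co : ℤ_[2] →+* ℚ_[2] := PadicInt.Coe.ringHom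

theorem co_norm (r : ℤ_[2]) : ‖co r‖ ≤ 1 := PadicInt.norm_le_one r

theorem co_inj {r s : ℤ_[2]} (h : co r = co s) : r = s := PadicInt.ext h

theorem co_surj {u : ℚ_[2]} (h : ‖u‖ ≤ 1) : ∃ r, co r = u := ⟨⟨u, h⟩, rfl⟩

theorem par2 (w : ℤ_[2]) : (∃ k, w = 2 * k) ∨ ∃ k, w = 2 * k + 1 := by
  have key : ∀ u : ℤ_[2], PadicInt.toZMod u = 0 → ∃ k, u = 2 * k := by
    intro u hu
    have h1 : u ∈ RingHom.ker (PadicInt.toZMod (p := 2)) := hu
    rw [PadicInt.ker_toZMod, PadicInt.maximalIdeal_eq_span_p, Ideal.mem_span_singleton] at h1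
    obtain ⟨k, hk⟩ := h1
    exact ⟨k, by rw [hk]; norm_num⟩
  have h2 : ∀ c : ZMod 2, c = 0 ∨ c - 1 = 0 := by decide
  rcases h2 (PadicInt.toZMod w) with h | h
  · exact Or.inl (key w h)
  · right
    obtain ⟨k, hk⟩ := key (w - 1) (by rw [map_sub, map_one]; exact h)
    exact ⟨k, by linear_combination hk⟩

theorem ev2 (w : ℤ_[2]) : ∃ j, co w * (co w + 1) = 2 * co j := by
  rcases par2 w with ⟨k, rfl⟩ | ⟨k, rfl⟩
  · refine ⟨k * (2 * k + 1), ?_⟩
    simp only [map_add, map_mul, map_ofNat, map_one]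
    ring
  · refine ⟨(2 * k + 1) * (k + 1), ?_⟩
    simp only [map_add, map_mul, map_ofNat, map_one]
    ring

theorem of_lt {u : ℚ_[2]} (h : ‖u‖ < 1) : ∃ w : ℤ_[2], u = 2 * co w := by
  obtain ⟨r, rfl⟩ := co_surj h.le
  obtain ⟨k, hk⟩ := (PadicInt.norm_lt_one_iff_dvd r).1 h
  refine ⟨k, ?_⟩
  rw [hk, map_mul, map_natCast]
  norm_num

theorem of_eq {u : ℚ_[2]} (h : ‖u‖ = 1) : ∃ w : ℤ_[2], u = 1 + 2 * co w := by
  obtain ⟨r, rfl⟩ := co_surj h.le
  rcases par2 r with ⟨k, rfl⟩ | ⟨k, rfl⟩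
  · exfalso
    have h1 : ‖(2 * k : ℤ_[2])‖ < 1 := (PadicInt.norm_lt_one_iff_dvd _).2 ⟨k, by norm_num⟩
    exact h1.ne h
  · refine ⟨k, ?_⟩
    simp only [map_add, map_mul, map_ofNat, map_one]
    ring

/-- a number which is not divisible by `4` is a square up to a factor `1 + 8 k` only if it is `1 mod 8` -/
theorem one8 {z : ℤ} (hz : ¬ (4 : ℤ) ∣ z) (k : ℤ_[2]) (s : ℚ_[2])
    (h : (z : ℚ_[2]) * (1 + 8 * co k) = s ^ 2) : z % 8 = 1 := by
  have h0 : (z : ℚ_[2]) * (1 + 8 * co k) = co (z * (1 + 8 * k)) := by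
    simp only [map_add, map_mul, map_ofNat, map_one, map_intCast]
  have hs : ‖s‖ ≤ 1 := by
    have h1 : ‖s‖ ^ 2 ≤ 1 := by
      rw [← norm_pow, ← h, h0]
      exact co_norm _
    by_contra h4
    push Not at h4
    nlinarith
  obtain ⟨r, rfl⟩ := co_surj hs
  have h2 : (z : ℤ_[2]) * (1 + 8 * k) = r ^ 2 := by
    apply co_inj
    rw [← h0, h, map_pow]
  have h3 := congrArg (PadicInt.toZModPow (p := 2) 3) h2
  simp only [map_mul, map_add, map_pow, map_intCast, map_one, map_ofNat] at h3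
  have h8 : (8 : ZMod (2 ^ 3)) = 0 := by decide
  rw [h8, zero_mul, add_zero, mul_one] at h3
  have h4 : ∀ c : ZMod (2 ^ 3), c ^ 2 = 0 ∨ c ^ 2 = 1 ∨ c ^ 2 = 4 := by decide
  have h5 : (z : ZMod (2 ^ 3)) = 0 ∨ (z : ZMod (2 ^ 3)) = 1 ∨ (z : ZMod (2 ^ 3)) = 4 := by
    rw [h3]
    exact h4 _
  have h6 : ∀ c : ℤ, (z : ZMod (2 ^ 3)) = ((c : ℤ) : ZMod (2 ^ 3)) → z % 8 = c % 8 := by
    intro c hc
    rw [ZMod.intCast_eq_intCast_iff] at hc
    exact hc
  rcases h5 with h5 | h5 | h5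
  · have := h6 0 (by rw [h5]; norm_num)
    omega
  · have := h6 1 (by rw [h5]; norm_num)
    omega
  · have := h6 4 (by rw [h5]; norm_num)
    omega

theorem cop4 {a : ℤ} (h : a % 2 = 1) : IsCoprime (4 : ℤ) a := by
  rw [show (4 : ℤ) = 2 ^ 2 by norm_num]
  apply IsCoprime.pow_left
  exact ⟨-(a / 2), 1, by omega⟩

/-- the same for products of two numbers -/
theorem two8 {z d : ℤ} (hz : ¬ (4 : ℤ) ∣ z) (hd : ¬ (4 : ℤ) ∣ d) (k : ℤ_[2]) (s : ℚ_[2])
    (h : (z : ℚ_[2]) * d * (1 + 8 * co k) = s ^ 2) :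
    (z % 2 = 1 ∧ d % 2 = 1 ∧ z * d % 8 = 1) ∨
      (z % 2 = 0 ∧ d % 2 = 0 ∧ z / 2 * (d / 2) % 8 = 1) := by
  by_cases h4 : (4 : ℤ) ∣ z * d
  · right
    have hz2 : z % 2 = 0 := by
      by_contra hc
      exact hd ((cop4 (by omega)).dvd_of_dvd_mul_left h4)
    have hd2 : d % 2 = 0 := by
      by_contra hc
      exact hz ((cop4 (by omega)).dvd_of_dvd_mul_right h4)
    refine ⟨hz2, hd2, ?_⟩
    obtain ⟨z', rfl⟩ : ∃ z', z = 2 * z' := ⟨z / 2, by omega⟩
    obtain ⟨d', rfl⟩ : ∃ d', d = 2 * d' := ⟨d / 2, by omega⟩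
    rw [Int.mul_ediv_cancel_left _ two_ne_zero, Int.mul_ediv_cancel_left _ two_ne_zero]
    refine one8 ?_ k (s / 2) ?_
    · intro h5
      have e1 : z' % 2 = 1 := by omega
      have e2 : d' % 2 = 1 := by omega
      have e3 : (z' * d') % 2 = 1 := by rw [Int.mul_emod, e1, e2]; norm_num
      omega
    · push_cast at h ⊢
      field_simp
      linear_combination h
  · left
    have h5 : z * d % 8 = 1 := by
      refine one8 h4 k s ?_
      push_cast at h ⊢
      linear_combination h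
    have h6 : (z * d) % 2 = 1 := by omega
    rw [Int.mul_emod] at h6
    rcases Int.emod_two_eq_zero_or_one z with h7 | h7 <;>
      rcases Int.emod_two_eq_zero_or_one d with h8 | h8 <;> rw [h7, h8] at h6 <;>
      first | exact ⟨h7, h8, h5⟩ | norm_num at h6

theorem step2 {d z : ℤ} (hd : d % 4 = 2 ∨ d % 4 = 3) (hz : ¬ (4 : ℤ) ∣ z) {x y : ℚ_[2]} (hy : y ≠ 0)
    (h1 : y ^ 2 = x ^ 3 + (-34 * d : ℤ) * x ^ 2 + (225 * d ^ 2 : ℤ) * x) (hsq : IsSquare (x * z)) :
    z % 8 = 1 ∨ (z % 2 = 1 ∧ d % 2 = 1 ∧ z * d % 8 = 1) ∨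
      (z % 2 = 0 ∧ d % 2 = 0 ∧ z / 2 * (d / 2) % 8 = 1) := by
  obtain ⟨t, ht⟩ := hsq
  have hz0 : (z : ℚ_[2]) ≠ 0 := by
    have : z ≠ 0 := by rintro rfl; simp at hz
    exact_mod_cast this
  have hd4 : ¬ (4 : ℤ) ∣ d := by omega
  have hd0 : (d : ℚ_[2]) ≠ 0 := by
    have : d ≠ 0 := by rintro rfl; simp at hd4
    exact_mod_cast this
  have hx0 : x ≠ 0 := by
    rintro rfl
    apply hy
    simpa using h1
  obtain ⟨s, hs⟩ : ∃ s, s = t / z := ⟨_, rfl⟩
  have hx : x = z * s ^ 2 := by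
    rw [hs]
    field_simp
    linear_combination ht
  have hs0 : s ≠ 0 := by
    intro h0
    apply hx0
    rw [hx, h0]
    ring
  push_cast at h1
  obtain ⟨u, hu⟩ : ∃ u, u = x / d := ⟨_, rfl⟩
  have hu0 : u ≠ 0 := by
    rw [hu]
    exact div_ne_zero hx0 hd0
  have hxu : x = d * u := by
    rw [hu]
    field_simp
  have hA : y ^ 2 = z * s ^ 2 * (d ^ 2 * (u ^ 2 - 34 * u + 225)) := by
    linear_combination h1 + d ^ 2 * (u ^ 2 - 34 * u + 225) * hx + x * (x + d * u - 34 * d) * hxu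
  rcases lt_trichotomy ‖u‖ 1 with hn | hn | hn
  · left
    obtain ⟨w, rfl⟩ := of_lt hn
    obtain ⟨j, hj⟩ := ev2 w
    refine one8 hz (j - 9 * w + 28) (y / (s * d)) ?_
    rw [div_pow, hA]
    simp only [map_add, map_sub, map_mul, map_ofNat]
    field_simp
    linear_combination (-4 : ℚ_[2]) * hj
  · obtain ⟨m, hm⟩ := of_eq hn
    rcases par2 m with ⟨n, rfl⟩ | ⟨k, rfl⟩
    · rcases par2 n with ⟨k, rfl⟩ | ⟨k, rfl⟩
      · right
        refine two8 hz hd4 k (z * s) ?_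
        have h2 : (d : ℚ_[2]) * u = z * s ^ 2 := by rw [← hxu, hx]
        rw [hm] at h2
        simp only [map_mul, map_ofNat] at h2
        linear_combination z * h2
      · exfalso
        obtain ⟨j, hj⟩ := ev2 k
        simp only [map_add, map_mul, map_ofNat, map_one] at hm
        have h2 : d % 8 = 1 := by
          refine one8 hd4 (4 * k ^ 3 - 19 * j + 7 * k + 3) (y / (4 * d)) ?_
          rw [div_pow, hA, ← hx, hxu, hm]
          simp only [map_add, map_sub, map_mul, map_pow, map_ofNat]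
          field_simp
          linear_combination (16 * 76 : ℚ_[2]) * hj
        omega
    · left
      obtain ⟨j, hj⟩ := ev2 k
      simp only [map_add, map_mul, map_ofNat, map_one] at hm
      refine one8 hz (j - 4 * k + 4) (y / (2 * s * d)) ?_
      rw [div_pow, hA, hm]
      simp only [map_add, map_sub, map_mul, map_ofNat]
      field_simp
      linear_combination (-16 : ℚ_[2]) * hj
  · left
    have hn' : ‖(1 : ℚ_[2]) / u‖ < 1 := by
      rw [norm_div, norm_one, div_lt_one (by linarith)]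
      exact hn
    obtain ⟨w, hw⟩ := of_lt hn'
    obtain ⟨j, hj⟩ := ev2 w
    refine one8 hz (225 * j - 121 * w) (y / (s * x)) ?_
    have h2 : (1 : ℚ_[2]) + 8 * (225 * co j - 121 * co w) =
        1 - 34 * (2 * co w) + 225 * (2 * co w) ^ 2 := by
      linear_combination (-900 : ℚ_[2]) * hj
    simp only [map_sub, map_mul, map_ofNat]
    rw [h2, ← hw, div_pow y (s * x), hA, hxu]
    field_simp


/-- the discriminant as a product of prime discriminants -/
theorem ev_prod {δ : ℤ} {N : Finset ℕ} {d : ℤ} (h : Ev δ N d) :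
    d = pz δ 2 * ∏ q ∈ N.erase 2, ps q ∧ (∏ q ∈ N.erase 2, ps q) % 4 = 1 := by
  obtain ⟨hδ, hN, h2, hJ, hd⟩ := h
  have hodd : ∀ q ∈ N.erase 2, q % 2 = 1 := by
    intro q hq
    rw [mem_erase] at hq
    rcases (hN q hq.2).1.eq_two_or_odd with h1 | h1
    · exact absurd h1 hq.1
    · exact h1
  have h4 := Pool.Agent.XV.T.S1.prod_mod4 (N.erase 2) hodd
  refine ⟨?_, h4⟩
  have hpe : (pe δ N : ℤ) = δ.natAbs * ∏ q ∈ N.erase 2, (q : ℤ) := by
    unfold pe
    rw [← mul_prod_erase N _ h2]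
    push_cast
    congr 1
    · simp [md]
    · refine prod_congr rfl fun q hq => ?_
      rw [md, if_neg (ne_of_mem_erase hq)]
  have hsg : c2 δ (-1) * ∏ q ∈ N.erase 2, jacobiSym (-1) q = -1 := by
    have h5 := hJ.1
    unfold sg ch at h5
    rw [← mul_prod_erase N _ h2] at h5
    refine Eq.trans ?_ h5
    congr 1
    refine prod_congr rfl fun q hq => ?_
    rw [sy, if_neg (ne_of_mem_erase hq)]
  have hps : ∏ q ∈ N.erase 2, ps q =
      (∏ q ∈ N.erase 2, jacobiSym (-1) q) * ∏ q ∈ N.erase 2, (q : ℤ) := by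
    rw [← prod_mul_distrib]
    refine prod_congr rfl fun q hq => ?_
    have h5 := hodd q hq
    rw [jacobiSym.at_neg_one (Nat.odd_iff.2 h5)]
    unfold ps
    split_ifs with h6
    · rw [ZMod.χ₄_nat_one_mod_four h6, one_mul]
    · rw [ZMod.χ₄_nat_three_mod_four (by omega), neg_one_mul]
  rw [hps]
  set P := ∏ q ∈ N.erase 2, (q : ℤ) with hP
  set E := ∏ q ∈ N.erase 2, jacobiSym (-1) q with hE
  rcases hδ with rfl | rfl | rfl
  · have e1 : c2 (-4) (-1) = -1 := by decide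
    have e2 : pz (-4) 2 = -1 := by decide
    rw [e1] at hsg
    rw [e2]
    have e3 : E = 1 := by omega
    rw [e3]
    rw [hpe] at hd
    have e4 : ((-4 : ℤ).natAbs : ℤ) = 4 := rfl
    rw [e4] at hd
    omega
  · have e1 : c2 8 (-1) = 1 := by decide
    have e2 : pz 8 2 = 2 := by decide
    rw [e1] at hsg
    rw [e2]
    have e3 : E = -1 := by omega
    rw [e3]
    rw [hpe] at hd
    have e4 : ((8 : ℤ).natAbs : ℤ) = 8 := rfl
    rw [e4] at hd
    omega
  · have e1 : c2 (-8) (-1) = -1 := by decide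
    have e2 : pz (-8) 2 = -2 := by decide
    rw [e1] at hsg
    rw [e2]
    have e3 : E = 1 := by omega
    rw [e3]
    rw [hpe] at hd
    have e4 : ((-8 : ℤ).natAbs : ℤ) = 8 := rfl
    rw [e4] at hd
    omega

theorem mod4 {a b : ℤ} (h : a * b % 8 = 1) : a % 4 = b % 4 := by
  have h1 : a * b % 4 = 1 := by omega
  rw [Int.mul_emod] at h1
  have ha : a % 4 = 0 ∨ a % 4 = 1 ∨ a % 4 = 2 ∨ a % 4 = 3 := by omega
  have hb : b % 4 = 0 ∨ b % 4 = 1 ∨ b % 4 = 2 ∨ b % 4 = 3 := by omega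
  rcases ha with ha | ha | ha | ha <;> rcases hb with hb | hb | hb | hb <;> rw [ha, hb] at h1 <;>
    omega

theorem mod8 {a R : ℤ} (h : a * (a * R) % 8 = 1) : R % 8 = 1 := by
  have h1 : a % 4 = (a * R) % 4 := mod4 h
  have ha : a % 2 = 1 := by
    by_contra hc
    obtain ⟨b, rfl⟩ : ∃ b, a = 2 * b := ⟨a / 2, by omega⟩
    have h2 : 2 * b * (2 * b * R) = 2 * (b * (2 * b * R)) := by ring
    rw [h2] at h
    omega
  obtain ⟨b, rfl⟩ : ∃ b, a = 2 * b + 1 := ⟨a / 2, by omega⟩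
  obtain ⟨c, hc⟩ : ∃ c, b * (b + 1) = 2 * c := by
    rcases Int.even_mul_succ_self b with ⟨c, hc⟩
    exact ⟨c, by rw [hc]; ring⟩
  have h2 : (2 * b + 1) * ((2 * b + 1) * R) = 8 * (c * R) + R := by
    linear_combination 4 * R * hc
  rw [h2] at h
  omega

theorem prod_eq {δ : ℤ} {X : Finset ℕ} (h : 2 ∉ X) : ∏ q ∈ X, pz δ q = ∏ q ∈ X, ps q :=
  prod_congr rfl fun q hq => by
    rw [pz, if_neg]
    rintro rfl
    exact h hq

end Pool.Agent.XW.T.S1

namespace Pool.Agent.XW.T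

open Finset
open Pool.Agent.Z700 (pr)
open Pool.Agent.Y700 (PC)
open Pool.Agent.XV.T (aD bD ps)
open Pool.Agent.Y814.BSD14 Pool.Agent.Y809.BSD14
open Pool.Agent.XV.T.S1
open Pool.Agent.XW.T.S1

theorem t_S1 : S_S1 := by
  intro δ N d hE z hz h
  obtain ⟨hdP, hM4⟩ := ev_prod hE
  obtain ⟨hδ, hN, h2N, hJ, hd⟩ := hE
  obtain ⟨M, hM⟩ : ∃ M, M = ∏ q ∈ N.erase 2, ps q := ⟨_, rfl⟩
  rw [← hM] at hdP hM4
  have hMa : M.natAbs = pr (N.erase 2) := by rw [hM, prod_natAbs]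
  have hprime : ∀ p ∈ N.erase 2, p.Prime := fun p hp => (hN p (mem_of_mem_erase hp)).1
  have hodd : ∀ q ∈ N.erase 2, q % 2 = 1 := by
    intro q hq
    rcases (hprime q hq).eq_two_or_odd with h1 | h1
    · exact absurd h1 (ne_of_mem_erase hq)
    · exact h1
  have hpz : (δ = -4 ∧ pz δ 2 = -1) ∨ (δ = 8 ∧ pz δ 2 = 2) ∨ (δ = -8 ∧ pz δ 2 = -2) := by
    rcases hδ with rfl | rfl | rfl
    · exact Or.inl ⟨rfl, by decide⟩
    · exact Or.inr (Or.inl ⟨rfl, by decide⟩)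
    · exact Or.inr (Or.inr ⟨rfl, by decide⟩)
  have hd4 : d % 4 = 2 ∨ d % 4 = 3 := by
    rcases hpz with ⟨-, h1⟩ | ⟨-, h1⟩ | ⟨-, h1⟩ <;> rw [h1] at hdP <;> omega
  have hd3 : d % 3 = 1 := by
    have := hJ.2.1
    omega
  have hd5 : d % 5 = 2 ∨ d % 5 = 3 := by
    have := hJ.2.2
    omega
  have hMs : Squarefree M := by
    rw [← Int.squarefree_natAbs, hMa]
    exact pr_sqf hprime
  have h' : ∀ (l : ℕ) [Fact l.Prime], PC (-34 * d) (225 * d ^ 2) l z := fun l _ => h l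
  -- the primes `3, 5`
  have P3 : Prime ((3 : ℕ) : ℤ) := Nat.prime_iff_prime_int.1 Nat.prime_three
  have P5 : Prime ((5 : ℕ) : ℤ) := Nat.prime_iff_prime_int.1 Nat.prime_five
  haveI f2 : Fact (Nat.Prime 2) := ⟨Nat.prime_two⟩
  haveI f3 : Fact (Nat.Prime 3) := ⟨Nat.prime_three⟩
  haveI f5 : Fact (Nat.Prime 5) := ⟨Nat.prime_five⟩
  have hz4 : ¬ (4 : ℤ) ∣ z := by
    intro h1
    have h2 := hz 2 (by norm_num; exact h1)
    norm_num [Int.isUnit_iff] at h2
  have z3 : ¬ ((3 : ℕ) : ℤ) ∣ z := by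
    have h1 := h' 3
    rw [show (225 : ℤ) * d ^ 2 = ((3 : ℕ) : ℤ) ^ 2 * (25 * d ^ 2) by push_cast; ring] at h1
    refine not_dvd_of_PC2 hz ?_ ?_ h1
    · have e : (d : ZMod 3) = 1 := by
        have : (d : ZMod 3) = ((1 : ℤ) : ZMod 3) := by
          rw [ZMod.intCast_eq_intCast_iff]
          exact hd3
        rw [this, Int.cast_one]
      push_cast
      rw [e]
      exact ns3
    · intro h0
      rcases P3.dvd_or_dvd h0 with h3 | h3
      · norm_num at h3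
      · have := P3.dvd_of_dvd_pow h3
        push_cast at this
        omega
  have z5 : ¬ ((5 : ℕ) : ℤ) ∣ z := by
    have h1 := h' 5
    rw [show (225 : ℤ) * d ^ 2 = ((5 : ℕ) : ℤ) ^ 2 * (9 * d ^ 2) by push_cast; ring] at h1
    refine not_dvd_of_PC2 hz ?_ ?_ h1
    · have e : (d : ZMod 5) = 2 ∨ (d : ZMod 5) = 3 := by
        rcases hd5 with h2 | h2
        · left
          have : (d : ZMod 5) = ((2 : ℤ) : ZMod 5) := by
            rw [ZMod.intCast_eq_intCast_iff]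
            exact h2
          rw [this]; rfl
        · right
          have : (d : ZMod 5) = ((3 : ℤ) : ZMod 5) := by
            rw [ZMod.intCast_eq_intCast_iff]
            exact h2
          rw [this]; rfl
      push_cast
      rcases e with e | e <;> rw [e]
      · exact ns5a
      · exact ns5b
    · intro h0
      rcases P5.dvd_or_dvd h0 with h3 | h3
      · norm_num at h3
      · have := P5.dvd_of_dvd_pow h3
        push_cast at this
        omega
  -- the primes dividing `z`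
  have hnd225 : ∀ q : ℕ, q.Prime → q ≠ 3 → q ≠ 5 → ¬ (q : ℤ) ∣ 225 := by
    intro q hq n3 n5 h0
    have h1 : q ∣ 225 := by exact_mod_cast h0
    rw [show (225 : ℕ) = 3 ^ 2 * 5 ^ 2 by norm_num] at h1
    rcases (Nat.Prime.dvd_mul hq).1 h1 with h2 | h2
    · exact n3 ((Nat.prime_dvd_prime_iff_eq hq Nat.prime_three).1 (hq.dvd_of_dvd_pow h2))
    · exact n5 ((Nat.prime_dvd_prime_iff_eq hq Nat.prime_five).1 (hq.dvd_of_dvd_pow h2))
  have hndz : ∀ q : ℕ, q.Prime → q ≠ 2 → ¬ (q : ℤ) ∣ pz δ 2 := by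
    intro q hq n2 h0
    have h1 : (q : ℤ) ∣ 2 := by
      rcases hpz with ⟨-, h1⟩ | ⟨-, h1⟩ | ⟨-, h1⟩ <;> rw [h1] at h0
      · exact h0.trans ⟨-2, by norm_num⟩
      · exact h0
      · exact h0.trans ⟨-1, by norm_num⟩
    have h2 : q ∣ 2 := by exact_mod_cast h1
    exact n2 ((Nat.prime_dvd_prime_iff_eq hq Nat.prime_two).1 h2)
  have hprz : ∀ q : ℕ, q.Prime → q ≠ 2 → (q : ℤ) ∣ z → q ∈ N.erase 2 := by
    intro q hq n2 hqz
    haveI : Fact q.Prime := ⟨hq⟩
    have n3 : q ≠ 3 := by rintro rfl; exact z3 hqz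
    have n5 : q ≠ 5 := by rintro rfl; exact z5 hqz
    have hqP := Nat.prime_iff_prime_int.1 hq
    by_contra hcon
    refine not_dvd_of_PC hz ?_ (h' q) hqz
    intro h0
    rcases hqP.dvd_or_dvd h0 with h1 | h1
    · exact hnd225 q hq n3 n5 h1
    · have h2 := hqP.dvd_of_dvd_pow h1
      rw [hdP] at h2
      rcases hqP.dvd_or_dvd h2 with h3 | h3
      · exact hndz q hq n2 h3
      · rw [Int.natCast_dvd, hMa] at h3
        exact hcon (mem_of_dvd hprime hq h3)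
  have hz0 : z.natAbs ≠ 0 := Int.natAbs_ne_zero.2 hz.ne_zero
  obtain ⟨O, hO⟩ : ∃ O, O = z.natAbs.primeFactors.erase 2 := ⟨_, rfl⟩
  have hmem : ∀ q, q ∈ O ↔ q ≠ 2 ∧ q.Prime ∧ (q : ℤ) ∣ z := by
    intro q
    rw [hO, mem_erase, Nat.mem_primeFactors, Int.natCast_dvd]
    tauto
  have hsub : O ⊆ N.erase 2 := by
    intro q hq
    obtain ⟨h1, h2, h3⟩ := (hmem q).1 hq
    exact hprz q h2 h1 h3
  have h2O : 2 ∉ O := fun h0 => ((hmem 2).1 h0).1 rfl
  have hOo : ∀ q ∈ O, q % 2 = 1 := fun q hq => hodd q (hsub hq)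
  have hsq : ∏ p ∈ z.natAbs.primeFactors, p = z.natAbs :=
    Nat.prod_primeFactors_of_squarefree (Int.squarefree_natAbs.2 hz)
  have hza : (z % 2 = 1 → z.natAbs = pr O) ∧ (z % 2 = 0 → z.natAbs = 2 * pr O) := by
    unfold pr
    refine ⟨fun h1 => ?_, fun h1 => ?_⟩
    · rw [hO, erase_eq_of_notMem]
      · exact hsq.symm
      · intro h2
        have h3 := Nat.dvd_of_mem_primeFactors h2
        omega
    · rw [hO, mul_prod_erase z.natAbs.primeFactors (fun p => p)]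
      · exact hsq.symm
      · rw [Nat.mem_primeFactors]
        exact ⟨Nat.prime_two, by omega, hz0⟩
  have hdN : d = ∏ q ∈ N, pz δ q := by
    rw [← mul_prod_erase N _ h2N, prod_eq (notMem_erase 2 N), ← hM]
    exact hdP
  -- the set of primes
  obtain ⟨D0, hD0, hDN, hzD, hD2⟩ : ∃ D0 : Finset ℕ, D0.erase 2 = O ∧ D0 ⊆ N ∧
      z = ∏ q ∈ D0, pz δ q ∧ ((2 ∉ D0 ∧ z % 8 = 1) ∨ (2 ∈ D0 ∧ ∀ R, d = z * R → R % 8 = 1)) := by
    obtain ⟨x, y, hy, h1, h2⟩ := h' 2
    have hON : O ⊆ N := hsub.trans (erase_subset 2 N)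
    rcases step2 hd4 hz4 hy h1 h2 with h3 | ⟨h3, h4, h5⟩ | ⟨h3, h4, h5⟩
    · refine ⟨O, erase_eq_of_notMem h2O, hON, ?_, Or.inl ⟨h2O, h3⟩⟩
      rw [prod_eq h2O]
      exact eq_prod O (by omega) hOo (hza.1 (by omega))
    · refine ⟨insert 2 O, erase_insert h2O, insert_subset h2N hON, ?_,
        Or.inr ⟨mem_insert_self 2 O, fun R hR => ?_⟩⟩
      · rw [prod_insert h2O, prod_eq h2O]
        have e1 : pz δ 2 = -1 := by
          rcases hpz with ⟨-, h6⟩ | ⟨-, h6⟩ | ⟨-, h6⟩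
          · exact h6
          · rw [h6] at hdP
            omega
          · rw [h6] at hdP
            omega
        have e2 := mod4 h5
        have e3 : -z = ∏ q ∈ O, ps q :=
          eq_prod O (by omega) hOo (by rw [Int.natAbs_neg]; exact hza.1 h3)
        rw [e1, ← e3]
        ring
      · rw [hR] at h5
        exact mod8 h5
    · obtain ⟨z', rfl⟩ : ∃ z', z = 2 * z' := ⟨z / 2, by omega⟩
      obtain ⟨d', rfl⟩ : ∃ d', d = 2 * d' := ⟨d / 2, by omega⟩
      rw [Int.mul_ediv_cancel_left _ two_ne_zero, Int.mul_ediv_cancel_left _ two_ne_zero] at h5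
      have e2 := mod4 h5
      have e3 := hza.2 h3
      have e4 : z'.natAbs = pr O := by omega
      refine ⟨insert 2 O, erase_insert h2O, insert_subset h2N hON, ?_,
        Or.inr ⟨mem_insert_self 2 O, fun R hR => ?_⟩⟩
      · rw [prod_insert h2O, prod_eq h2O]
        rcases hpz with ⟨-, h6⟩ | ⟨-, h6⟩ | ⟨-, h6⟩ <;> rw [h6] at hdP
        · omega
        · have e5 : z' = ∏ q ∈ O, ps q := eq_prod O (by omega) hOo e4
          rw [h6, ← e5]
        · have e5 : -z' = ∏ q ∈ O, ps q := eq_prod O (by omega) hOo (by rw [Int.natAbs_neg]; exact e4)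
          rw [h6, ← e5]
          ring
      · have e5 : d' = z' * R := by
          have e6 : 2 * d' = 2 * (z' * R) := by rw [hR]; ring
          omega
        rw [e5] at h5
        exact mod8 h5
  refine ⟨D0, hDN, hzD, ?_⟩
  have hDR : d = z * ∏ q ∈ N \ D0, pz δ q := by
    rw [hdN, hzD, mul_comm]
    exact (Finset.prod_sdiff hDN).symm
  intro p hp
  by_cases hp2 : p = 2
  · subst hp2
    unfold genS s2
    rcases hD2 with ⟨h1, h2⟩ | ⟨h1, h2⟩
    · rw [if_neg h1, if_pos rfl, ← hzD, if_pos h2]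
    · rw [if_pos h1, if_pos rfl, if_pos (h2 _ hDR)]
  obtain ⟨hpp, p3, p5⟩ := hN p hp
  haveI : Fact p.Prime := ⟨hpp⟩
  have hpP := Nat.prime_iff_prime_int.1 hpp
  have hpM : (p : ℤ) ∣ M := by
    rw [Int.natCast_dvd, hMa]
    exact dvd_of_mem (mem_erase.2 ⟨hp2, hp⟩)
  obtain ⟨M', hM'⟩ := hpM
  have hndM := not_dvd_of_sqf hpp hMs hM'
  obtain ⟨D', hDd⟩ : ∃ D', D' = pz δ 2 * M' := ⟨_, rfl⟩
  have hD' : d = p * D' := by
    rw [hdP, hM', hDd]
    ring
  have hnd' : ¬ (p : ℤ) ∣ D' := by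
    intro h0
    rw [hDd] at h0
    rcases hpP.dvd_or_dvd h0 with h1 | h1
    · exact hndz p hpp hp2 h1
    · exact hndM h1
  have hD'0 : (D' : ZMod p) ≠ 0 := by
    rw [Ne, ZMod.intCast_zmod_eq_zero_iff_dvd]
    exact hnd'
  have hmemD : p ∈ D0 ↔ (p : ℤ) ∣ z := by
    have h1 := hmem p
    rw [← hD0, mem_erase] at h1
    constructor
    · intro h2
      exact (h1.1 ⟨hp2, h2⟩).2.2
    · intro h2
      exact (h1.2 ⟨hp2, hpp, h2⟩).2
  unfold genS s2
  rw [if_neg hp2, if_neg hp2]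
  split_ifs with hpD0
  · obtain ⟨z', hz'⟩ := hmemD.1 hpD0
    have hB : ¬ (p : ℤ) ∣ 225 * D' ^ 2 := by
      intro h0
      rcases hpP.dvd_or_dvd h0 with h1 | h1
      · exact hnd225 p hpp p3 p5 h1
      · exact hnd' (hpP.dvd_of_dvd_pow h1)
    have h1 := h' p
    rw [show -34 * d = (p : ℤ) * (-34 * D') by rw [hD']; ring,
      show 225 * d ^ 2 = (p : ℤ) ^ 2 * (225 * D' ^ 2) by rw [hD']; ring] at h1
    obtain ⟨r, hr, -, hr2⟩ := root_of_PC hz ⟨z', hz'⟩ hB h1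
    have hr3 := hr2 z' hz'
    have n3 : (3 : ZMod p) ≠ 0 := by exact_mod_cast cast_ne hpp Nat.prime_three p3
    have n5 : (5 : ZMod p) ≠ 0 := by exact_mod_cast cast_ne hpp Nat.prime_five p5
    have h2 : IsSquare ((D' : ZMod p) * (z' : ZMod p)) := by
      have h3 : (r - 9 * D') * (r - 25 * D') = 0 := by
        push_cast at hr
        linear_combination hr
      obtain ⟨t, ht⟩ := hr3
      rcases mul_eq_zero.1 h3 with h4 | h4
      · refine ⟨t / 3, ?_⟩
        have h5 := sub_eq_zero.1 h4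
        rw [h5] at ht
        field_simp
        linear_combination ht
      · refine ⟨t / 5, ?_⟩
        have h5 := sub_eq_zero.1 h4
        rw [h5] at ht
        field_simp
        linear_combination ht
    have hrel : D' = z' * ∏ q ∈ N \ D0, pz δ q := by
      have hp0 : (p : ℤ) ≠ 0 := by exact_mod_cast hpp.ne_zero
      apply mul_left_cancel₀ hp0
      rw [← hD', hDR, hz']
      ring
    set R := ∏ q ∈ N \ D0, pz δ q with hR
    have hrel' : (D' : ZMod p) = (z' : ZMod p) * (R : ZMod p) := by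
      rw [hrel]
      push_cast
      ring
    have hR0 : (R : ZMod p) ≠ 0 := fun h0 => hD'0 (by rw [hrel', h0, mul_zero])
    have hz'0 : (z' : ZMod p) ≠ 0 := fun h0 => hD'0 (by rw [hrel', h0, zero_mul])
    apply jac_one hR0
    obtain ⟨t, ht⟩ := h2
    refine ⟨t / z', ?_⟩
    rw [div_mul_div_comm, eq_div_iff (mul_ne_zero hz'0 hz'0), ← ht, hrel']
    ring
  · have hpz : ¬ (p : ℤ) ∣ z := fun h0 => hpD0 (hmemD.2 h0)
    have h1 := h' p
    rw [hD'] at h1
    have h3 := sq_of_PC (A0 := -34) (B0 := 225) hpz hnd' (hnd225 p hpp p3 p5) (by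
      refine ⟨15, ?_⟩
      push_cast
      norm_num) h1
    rw [← hzD]
    apply jac_one _ h3
    rw [Ne, ZMod.intCast_zmod_eq_zero_iff_dvd]
    exact hpz

end Pool.Agent.XW.T
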