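import Pool.Agent.XW.T.Stm
import Pool.Agent.Y809.BSD14.Selb

/-!
# XW-18-2: the Selmer group of the dual isogeny, even discriminants

The classes of `x` on `y² = x (x + 4 d) (x + 64 d)`, `4 d = -pe δ N`, which are everywhere locally soluble
and positive are products over `D0 ⊆ N` with trivial Rédei symbols.  Port of `Pool/Agent/XV/T/S2.lean`.
-/

set_option autoImplicit false
set_option linter.style.haveILetI false

namespace Pool.Agent.XW.T

open Finset
open Pool.Agent.Y700 (PC)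
open Pool.Agent.Y814.BSD14 Pool.Agent.Y809.BSD14
open Pool.Agent.XV.T (aD bD)

namespace S2

theorem nd256 {q : ℕ} (hq : q.Prime) (n2 : q ≠ 2) : ¬ (q : ℤ) ∣ 256 := by
  intro h0
  have h1 : q ∣ 256 := by exact_mod_cast h0
  rw [show (256 : ℕ) = 2 ^ 8 by norm_num] at h1
  exact n2 ((Nat.prime_dvd_prime_iff_eq hq Nat.prime_two).1 (hq.dvd_of_dvd_pow h1))

theorem nd4 {q : ℕ} (hq : q.Prime) (n2 : q ≠ 2) : ¬ q ∣ 4 := by
  intro h1
  rw [show (4 : ℕ) = 2 ^ 2 by norm_num] at h1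
  exact n2 ((Nat.prime_dvd_prime_iff_eq hq Nat.prime_two).1 (hq.dvd_of_dvd_pow h1))

/-- an odd prime dividing `pe δ X` is in `X` -/
theorem mem_of_dvd {δ : ℤ} (hδ : Dt δ) {X : Finset ℕ} (hX : ∀ p ∈ X, p.Prime) {q : ℕ} (hq : q.Prime)
    (q2 : q ≠ 2) (h : q ∣ pe δ X) : q ∈ X := by
  unfold pe at h
  obtain ⟨r, hr, hqr⟩ := (hq.prime.dvd_finsetProd_iff _).1 h
  unfold md at hqr
  split_ifs at hqr with h2
  · exfalso
    have h8 : q ∣ 8 := by
      rcases hδ with e | e | e <;> subst e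
      · exact dvd_trans hqr (by decide)
      · exact hqr
      · exact hqr
    rw [show (8 : ℕ) = 2 ^ 3 by norm_num] at h8
    exact q2 ((Nat.prime_dvd_prime_iff_eq hq Nat.prime_two).1 (hq.dvd_of_dvd_pow h8))
  · exact (Nat.prime_dvd_prime_iff_eq hq (hX r hr)).1 hqr ▸ hr

/-- `4` divides the modulus when `2 ∈ X` -/
theorem four_dvd {δ : ℤ} (hδ : Dt δ) {X : Finset ℕ} (h : 2 ∈ X) : 4 ∣ pe δ X := by
  have h1 : md δ 2 ∣ pe δ X := dvd_prod_of_mem _ h
  refine dvd_trans ?_ h1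
  unfold md
  rcases hδ with e | e | e <;> subst e <;> decide

theorem pe_split {δ : ℤ} {N : Finset ℕ} {p : ℕ} (hp : p ∈ N) (p2 : p ≠ 2) :
    pe δ N = p * pe δ (N.erase p) := by
  unfold pe
  rw [← mul_prod_erase N _ hp]
  congr 1
  exact if_neg p2

end S2

open S2

theorem t_S2 : S_S2 := by
  intro δ N d hE z hz hz0 h0
  obtain ⟨hδ, hN, h2N, hJ, hd⟩ := hE
  have hNp : ∀ p ∈ N, p.Prime := fun p hp => (hN p hp).1
  have h : ∀ (l : ℕ) [Fact l.Prime], PC (68 * d) (256 * d ^ 2) l z := by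
    intro l _
    have := h0 l
    rwa [show (-2 : ℤ) * aD d = 68 * d by unfold aD; ring,
      show aD d ^ 2 - 4 * bD d = 256 * d ^ 2 by unfold aD bD; ring] at this
  have hzN : ∀ q : ℕ, q.Prime → (q : ℤ) ∣ z → q ∈ N := by
    intro q hq hqz
    haveI : Fact q.Prime := ⟨hq⟩
    by_cases q2 : q = 2
    · rw [q2]; exact h2N
    by_contra hqN
    refine not_dvd_of_PC hz ?_ (h q) hqz
    intro h3
    rcases (Nat.prime_iff_prime_int.1 hq).dvd_or_dvd h3 with h4 | h4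
    · exact nd256 hq q2 h4
    · have h5 := (Nat.prime_iff_prime_int.1 hq).dvd_of_dvd_pow h4
      have h6 : (q : ℤ) ∣ (pe δ N : ℤ) := by
        rw [← Int.dvd_neg, ← hd]
        exact Dvd.dvd.mul_left h5 4
      exact hqN (mem_of_dvd hδ hNp hq q2 (by exact_mod_cast h6))
  have hsub : z.natAbs.primeFactors ⊆ N := by
    intro q hq
    exact hzN q (Nat.prime_of_mem_primeFactors hq)
      (Int.natCast_dvd.2 (Nat.dvd_of_mem_primeFactors hq))
  obtain ⟨D0, hD0⟩ : ∃ D0, D0 = z.natAbs.primeFactors := ⟨_, rfl⟩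
  rw [← hD0] at hsub
  have hpr : ((∏ l ∈ D0, l : ℕ) : ℤ) = z := by
    rw [hD0, Nat.prod_primeFactors_of_squarefree (Int.squarefree_natAbs.2 hz)]
    exact Int.natAbs_of_nonneg hz0.le
  refine ⟨D0, hsub, by rw [← hpr]; push_cast; rfl, ?_⟩
  intro p hp'
  have hp := mem_of_mem_erase hp'
  have p2 := ne_of_mem_erase hp'
  obtain ⟨hpp, p3, p5⟩ := hN p hp
  haveI : Fact p.Prime := ⟨hpp⟩
  -- `pe δ N = p * 4 m`, `d = - p m`
  have h2e : 2 ∈ N.erase p := mem_erase.2 ⟨fun e => p2 e.symm, h2N⟩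
  obtain ⟨m, hm⟩ := four_dvd hδ h2e
  have hpe : pe δ N = p * (4 * m) := by rw [pe_split hp p2, hm]
  have hM : d = p * (-(m : ℤ)) := by
    have h4 : 4 * d = 4 * (p * (-(m : ℤ))) := by
      rw [hd, hpe]; push_cast; ring
    linarith
  have hmn : ¬ p ∣ m := by
    intro h3
    have h6 : p ∣ pe δ (N.erase p) := by rw [hm]; exact Dvd.dvd.mul_left h3 4
    exact notMem_erase p N (mem_of_dvd hδ (fun q hq => hNp q (mem_of_mem_erase hq)) hpp p2 h6)
  have hMn : ¬ (p : ℤ) ∣ (-(m : ℤ)) := by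
    rw [Int.dvd_neg]
    intro h3
    exact hmn (by exact_mod_cast h3)
  unfold gen
  split_ifs with hpD
  · -- `p ∣ z`
    have hpz : (p : ℤ) ∣ z := by
      rw [hD0] at hpD
      exact Int.natCast_dvd.2 (Nat.dvd_of_mem_primeFactors hpD)
    have hB : ¬ (p : ℤ) ∣ 256 * (-(m : ℤ)) ^ 2 := by
      intro h3
      rcases (Nat.prime_iff_prime_int.1 hpp).dvd_or_dvd h3 with h4 | h4
      · exact nd256 hpp p2 h4
      · exact hMn ((Nat.prime_iff_prime_int.1 hpp).dvd_of_dvd_pow h4)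
    have h1 := h p
    rw [show 68 * d = (p : ℤ) * (68 * (-(m : ℤ))) by rw [hM]; ring,
      show 256 * d ^ 2 = (p : ℤ) ^ 2 * (256 * (-(m : ℤ)) ^ 2) by
        rw [hM]; ring] at h1
    obtain ⟨r, hr, hr0, hr2⟩ := root_of_PC hz hpz hB h1
    have hDs : (∏ l ∈ D0, l : ℕ) = p * ∏ l ∈ D0.erase p, l :=
      (mul_prod_erase D0 (fun r : ℕ => r) hpD).symm
    have hz' : z = p * ((∏ l ∈ D0.erase p, l : ℕ) : ℤ) := by
      rw [← hpr, hDs]; push_cast; ring
    have h3 := hr2 _ hz'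
    have hA : ((∏ l ∈ D0.erase p, l : ℕ) : ZMod p) ≠ 0 := by
      intro h4
      have h6 : p ∣ ∏ l ∈ D0.erase p, l := (ZMod.natCast_eq_zero_iff _ p).1 h4
      obtain ⟨q, hq, hqr⟩ := (hpp.prime.dvd_finsetProd_iff _).1 h6
      have := (Nat.prime_dvd_prime_iff_eq hpp (hNp q (hsub (mem_of_mem_erase hq)))).1 hqr
      exact (ne_of_mem_erase hq) this.symm
    have hC : (m : ZMod p) ≠ 0 := fun h4 => hmn ((ZMod.natCast_eq_zero_iff _ p).1 h4)
    have n2 : (2 : ZMod p) ≠ 0 := by exact_mod_cast cast_ne hpp Nat.prime_two p2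
    have eD : (∏ l ∈ D0, l : ℕ) / p = ∏ l ∈ D0.erase p, l := by
      rw [hDs, Nat.mul_div_cancel_left _ hpp.pos]
    have eP : pe δ N / p = 4 * m := by rw [hpe, Nat.mul_div_cancel_left _ hpp.pos]
    rw [eD, eP]
    set A : ℕ := ∏ l ∈ D0.erase p, l with hAdef
    have hsq : IsSquare ((A * (4 * m) : ℕ) : ZMod p) := by
      push_cast at hr h3 ⊢
      obtain ⟨t, ht⟩ := h3
      have hr' : (r - 4 * (m : ZMod p)) * (r - 64 * (m : ZMod p)) = 0 := by
        linear_combination hr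
      rcases mul_eq_zero.1 hr' with h5 | h5
      · refine ⟨t, ?_⟩
        linear_combination ht - (A : ZMod p) * h5
      · refine ⟨t / 4, ?_⟩
        have n4 : (4 : ZMod p) ≠ 0 := by
          rw [show (4 : ZMod p) = 2 ^ 2 by norm_num]; exact pow_ne_zero _ n2
        field_simp
        linear_combination ht - (A : ZMod p) * h5
    rw [← jacobiSym.legendreSym.to_jacobiSym]
    refine (legendreSym.eq_one_iff p ?_).2 (by exact_mod_cast hsq)
    push_cast
    refine mul_ne_zero (by exact_mod_cast hA) (mul_ne_zero ?_ hC)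
    rw [show (4 : ZMod p) = 2 ^ 2 by norm_num]; exact pow_ne_zero _ n2
  · have hpz : ¬ (p : ℤ) ∣ z := by
      intro h3
      apply hpD
      rw [hD0, Nat.mem_primeFactors]
      exact ⟨hpp, Int.natCast_dvd.1 h3, Int.natAbs_ne_zero.2 hz.ne_zero⟩
    have h1 := h p
    rw [hM] at h1
    have h3 := sq_of_PC hpz hMn (nd256 hpp p2) ⟨16, by push_cast; norm_num⟩ h1
    rw [hpr, ← jacobiSym.legendreSym.to_jacobiSym]
    refine (legendreSym.eq_one_iff p ?_).2 h3
    rw [Ne, ZMod.intCast_zmod_eq_zero_iff_dvd]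
    exact hpz

end Pool.Agent.XW.T
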