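import Pool.Agent.XW.Core
import Pool.Agent.XW.T.Out
import Pool.Agent.XW.T.S1
import Pool.Agent.XW.T.S2
import Pool.Agent.XW.T.LIN
import Pool.Agent.XW.T.REC
import Pool.Agent.XW.T.LO2
import Pool.Agent.XW.T.LOO
import Pool.Agent.XV.T.CS
import Pool.Agent.XV.T.CT

/-!
# Project XW: the final statement, unconditionally
-/

set_option autoImplicit false

namespace Pool.Agent.XW.T

/-- the Selmer group and the Rédei kernel -/
theorem t_DSC : S_DSC :=
  dsc_of Pool.Agent.XV.T.t_CS Pool.Agent.XV.T.t_CT t_S1 t_S2 t_LIN t_REC t_LO2 t_LOO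

/-- **the final statement** for the even discriminants -/
theorem outE : S_OUTE := outE_of f_MAIN f_V5 f_E56 t_DSC

end Pool.Agent.XW.T
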